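import Mathlib

/-!
# Geometry part: from a homogeneous function with non-scalar Hessian to a surface
-/

set_option autoImplicit false

open scoped ContDiff
open Filter Topology Metric

namespace CarNeg

abbrev E3 := EuclideanSpace ℝ (Fin 3)

/-- the Hessian of `K` at `y`, restricted to the plane orthogonal to `y`, is not a multiple of
the inner product -/
def NonScalar (K : E3 → ℝ) (y : E3) : Prop :=
  ¬ ∃ c : ℝ, ∀ u v : E3, inner ℝ y u = 0 → inner ℝ y v = 0 →
    fderiv ℝ (fderiv ℝ K) y u v = c * inner ℝ u v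

/-- umbilical points of a level set -/
def Umb (F : E3 → ℝ) (p : E3) : Prop :=
  ∃ c : ℝ, ∀ u v : E3, fderiv ℝ F p u = 0 → fderiv ℝ F p v = 0 →
          fderiv ℝ (fderiv ℝ F) p u v = c * inner ℝ u v

/-- linear Riesz map -/
noncomputable def rz : (E3 →L[ℝ] ℝ) →L[ℝ] E3 :=
  ∑ i : Fin 3, (ContinuousLinearMap.apply ℝ ℝ
    (EuclideanSpace.basisFun (Fin 3) ℝ i)).smulRight (EuclideanSpace.basisFun (Fin 3) ℝ i)

theorem rz_apply (φ : E3 →L[ℝ] ℝ) :
    rz φ = ∑ i : Fin 3, φ (EuclideanSpace.basisFun (Fin 3) ℝ i) •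
      (EuclideanSpace.basisFun (Fin 3) ℝ i) := by
  simp [rz]

theorem inner_rz (φ : E3 →L[ℝ] ℝ) (w : E3) : inner ℝ (rz φ) w = φ w := by
  rw [rz_apply, sum_inner]
  conv_rhs => rw [← (EuclideanSpace.basisFun (Fin 3) ℝ).sum_repr' w, map_sum]
  refine Finset.sum_congr rfl fun i _ => ?_
  rw [inner_smul_left, map_smul, smul_eq_mul, mul_comm]
  simp

/-- data: smooth function, homogeneous of degree one outside the ball of radius one half -/
structure Dat (K : E3 → ℝ) : Prop where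
  smooth : ContDiff ℝ ∞ K
  hom : ∀ y : E3, 1 / 2 < ‖y‖ → ∀ r : ℝ, 0 < r → 1 / 2 < ‖r • y‖ → K (r • y) = r * K y

variable {K : E3 → ℝ}

theorem ev_half {y : E3} (hy : 1 / 2 < ‖y‖) : ∀ᶠ z in 𝓝 y, 1 / 2 < ‖z‖ :=
  (isOpen_lt continuous_const continuous_norm).mem_nhds
    (show y ∈ {z : E3 | 1/2 < ‖z‖} from hy)

theorem Dat.diff (h : Dat K) (y : E3) : DifferentiableAt ℝ K y :=
  h.smooth.contDiffAt.differentiableAt (by simp)

theorem Dat.fderiv_hom (h : Dat K) {y : E3} (hy : 1 / 2 < ‖y‖) {r : ℝ} (hr : 0 < r)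
    (hry : 1 / 2 < ‖r • y‖) : fderiv ℝ K (r • y) = fderiv ℝ K y := by
  have h1 : HasFDerivAt (fun z : E3 => K (r • z))
      ((fderiv ℝ K (r • y)).comp (r • ContinuousLinearMap.id ℝ E3)) y := by
    have h2 : HasFDerivAt (fun z : E3 => r • z) (r • ContinuousLinearMap.id ℝ E3) y :=
      (hasFDerivAt_id y).const_smul r
    exact (h.diff (r • y)).hasFDerivAt.comp y h2
  have h3 : (fun z : E3 => K (r • z)) =ᶠ[𝓝 y] fun z => r * K z := by
    have h4 : ∀ᶠ z in 𝓝 y, 1 / 2 < ‖r • z‖ := by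
      have hc : Continuous fun z : E3 => ‖r • z‖ := (continuous_const_smul r).norm
      exact (isOpen_lt continuous_const hc).mem_nhds (show y ∈ {z : E3 | 1/2 < ‖r • z‖} from hry)
    filter_upwards [ev_half hy, h4] with z hz hz'
    exact h.hom z hz r hr hz'
  have h5 : HasFDerivAt (fun z : E3 => r * K z) (r • fderiv ℝ K y) y :=
    (h.diff y).hasFDerivAt.const_mul r
  have h6 := (h5.congr_of_eventuallyEq h3).unique h1
  ext w
  have h7 := congrArg (fun T : E3 →L[ℝ] ℝ => T w) h6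
  simp only [smul_apply, ContinuousLinearMap.comp_apply,
    ContinuousLinearMap.id_apply, map_smul, smul_eq_mul] at h7
  exact (mul_left_cancel₀ hr.ne' h7).symm

theorem Dat.euler (h : Dat K) {y : E3} (hy : 1 / 2 < ‖y‖) : fderiv ℝ K y y = K y := by
  have h1 : HasDerivAt (fun s : ℝ => K (s • y)) (fderiv ℝ K ((1 : ℝ) • y) y) 1 := by
    have h2 : HasDerivAt (fun s : ℝ => s • y) y 1 := by
      simpa using (hasDerivAt_id (1 : ℝ)).smul_const y
    have h3 := (h.diff ((1 : ℝ) • y)).hasFDerivAt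
    exact h3.comp_hasDerivAt 1 h2
  have h4 : (fun s : ℝ => K (s • y)) =ᶠ[𝓝 1] fun s => s * K y := by
    have hc : Continuous fun s : ℝ => ‖s • y‖ := (continuous_id.smul continuous_const).norm
    have h5 : ∀ᶠ s in 𝓝 (1 : ℝ), 1 / 2 < ‖s • y‖ :=
      (isOpen_lt continuous_const hc).mem_nhds (by simpa using hy)
    filter_upwards [h5, lt_mem_nhds (zero_lt_one)] with s hs hs'
    exact h.hom y hy s hs' hs
  have h6 : HasDerivAt (fun s : ℝ => s * K y) (K y) 1 := by
    simpa using (hasDerivAt_id (1 : ℝ)).mul_const (K y)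
  have h7 := (h6.congr_of_eventuallyEq h4).unique h1
  rw [one_smul] at h7
  exact h7.symm

/-- the gradient -/
noncomputable def gr (K : E3 → ℝ) (y : E3) : E3 := rz (fderiv ℝ K y)

theorem inner_gr (K : E3 → ℝ) (y w : E3) : inner ℝ (gr K y) w = fderiv ℝ K y w := inner_rz _ _

theorem Dat.fderiv_smooth (h : Dat K) : ContDiff ℝ ∞ (fderiv ℝ K) :=
  h.smooth.fderiv_right (by simp)

theorem Dat.gr_smooth (h : Dat K) : ContDiff ℝ ∞ (gr K) :=
  rz.contDiff.comp h.fderiv_smooth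

theorem Dat.fderiv_gr (h : Dat K) (y w : E3) :
    fderiv ℝ (gr K) y w = rz (fderiv ℝ (fderiv ℝ K) y w) := by
  have h1 : HasFDerivAt (fderiv ℝ K) (fderiv ℝ (fderiv ℝ K) y) y :=
    (h.fderiv_smooth.contDiffAt.differentiableAt (by simp)).hasFDerivAt
  have h2 : HasFDerivAt (gr K) (rz.comp (fderiv ℝ (fderiv ℝ K) y)) y :=
    rz.hasFDerivAt.comp y h1
  rw [h2.fderiv]
  rfl

theorem Dat.inner_fderiv_gr (h : Dat K) (y w v : E3) :
    inner ℝ (fderiv ℝ (gr K) y w) v = fderiv ℝ (fderiv ℝ K) y w v := by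
  rw [h.fderiv_gr, inner_rz]

theorem Dat.gr_diff (h : Dat K) (y : E3) : DifferentiableAt ℝ (gr K) y :=
  h.gr_smooth.contDiffAt.differentiableAt (by simp)

theorem Dat.inner_self_fderiv_gr (h : Dat K) {y : E3} (hy : 1 / 2 < ‖y‖) (w : E3) :
    inner ℝ y (fderiv ℝ (gr K) y w) = 0 := by
  have h1 : HasFDerivAt (fun z : E3 => inner ℝ (gr K z) z)
      ((fderivInnerCLM ℝ (gr K y, y)).comp
        ((fderiv ℝ (gr K) y).prod (ContinuousLinearMap.id ℝ E3))) y :=
    (h.gr_diff y).hasFDerivAt.inner ℝ (hasFDerivAt_id y)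
  have h2 : (fun z : E3 => inner ℝ (gr K z) z) =ᶠ[𝓝 y] K := by
    filter_upwards [ev_half hy] with z hz
    rw [inner_gr, h.euler hz]
  have h3 := ((h.diff y).hasFDerivAt.congr_of_eventuallyEq h2).unique h1
  have h4 := congrArg (fun T : E3 →L[ℝ] ℝ => T w) h3
  simp only [ContinuousLinearMap.comp_apply, ContinuousLinearMap.prod_apply,
    ContinuousLinearMap.id_apply, fderivInnerCLM_apply] at h4
  rw [inner_gr] at h4
  rw [real_inner_comm]
  linarith

theorem Dat.bound (h : Dat K) : ∃ C : ℝ, 0 ≤ C ∧ ∀ y, ‖fderiv ℝ (gr K) y‖ ≤ C := by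
  have hc : Continuous (fderiv ℝ (gr K)) := (h.gr_smooth.fderiv_right (m := 0) (by simp)).continuous
  obtain ⟨C, hC⟩ := (isCompact_closedBall (0 : E3) 1).exists_bound_of_continuousOn hc.continuousOn
  refine ⟨C, (norm_nonneg _).trans (hC 0 (by simp)), fun y => ?_⟩
  rcases le_total ‖y‖ 1 with h1 | h1
  · exact hC y (by simpa using h1)
  · have hy0 : 0 < ‖y‖ := by linarith
    set r : ℝ := ‖y‖⁻¹ with hr
    have hr0 : 0 < r := inv_pos.2 hy0
    have hr1 : r ≤ 1 := inv_le_one_of_one_le₀ h1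
    have hn : ‖r • y‖ = 1 := by
      rw [norm_smul, Real.norm_of_nonneg hr0.le, hr, inv_mul_cancel₀ hy0.ne']
    have h2 : (gr K) =ᶠ[𝓝 y] fun z => gr K (r • z) := by
      have hcc : Continuous fun z : E3 => ‖r • z‖ := (continuous_const_smul r).norm
      have h4 : ∀ᶠ z in 𝓝 y, 1 / 2 < ‖r • z‖ :=
        (isOpen_lt continuous_const hcc).mem_nhds
          (show 1 / 2 < ‖r • y‖ by rw [hn]; norm_num)
      filter_upwards [ev_half (show 1 / 2 < ‖y‖ by linarith), h4] with z hz hz'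
      show rz _ = rz _
      rw [h.fderiv_hom hz hr0 hz']
    have h3 : HasFDerivAt (fun z : E3 => gr K (r • z))
        ((fderiv ℝ (gr K) (r • y)).comp (r • ContinuousLinearMap.id ℝ E3)) y := by
      have h2 : HasFDerivAt (fun z : E3 => r • z) (r • ContinuousLinearMap.id ℝ E3) y :=
        (hasFDerivAt_id y).const_smul r
      exact (h.gr_diff (r • y)).hasFDerivAt.comp y h2
    have h4 := (h3.congr_of_eventuallyEq h2).fderiv
    rw [h4]
    have hC0 : 0 ≤ C := (norm_nonneg _).trans (hC 0 (by simp))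
    refine ContinuousLinearMap.opNorm_le_bound _ hC0 fun w => ?_
    have h5 := (fderiv ℝ (gr K) (r • y)).le_opNorm (r • w)
    have h6 : ‖fderiv ℝ (gr K) (r • y)‖ ≤ C := hC _ (by simp [hn])
    calc ‖((fderiv ℝ (gr K) (r • y)).comp (r • ContinuousLinearMap.id ℝ E3)) w‖
        = ‖(fderiv ℝ (gr K) (r • y)) (r • w)‖ := rfl
      _ ≤ ‖fderiv ℝ (gr K) (r • y)‖ * ‖r • w‖ := h5
      _ ≤ C * ‖w‖ := by
          refine mul_le_mul h6 ?_ (norm_nonneg _) hC0
          rw [norm_smul, Real.norm_of_nonneg hr0.le]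
          exact mul_le_of_le_one_left (norm_nonneg _) hr1

/-- the diffeomorphism `id + e grad K` as a homeomorphism -/
theorem Dat.exists_homeo (h : Dat K) : ∃ (e : ℝ) (Ψ : E3 ≃ₜ E3) (T : E3 → E3 ≃L[ℝ] E3),
    0 < e ∧ (∀ y, Ψ y = y + e • gr K y) ∧ (∀ y, HasFDerivAt Ψ (T y : E3 →L[ℝ] E3) y) ∧
    (∀ y w, T y w = w + e • fderiv ℝ (gr K) y w) := by
  obtain ⟨C, hC0, hC⟩ := h.bound
  set e : ℝ := 1 / (2 * (C + 1)) with he
  have he0 : 0 < e := by positivity
  have heC : e * C ≤ 1 / 2 := by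
    rw [he, div_mul_eq_mul_div, one_mul, div_le_div_iff₀ (by positivity) (by norm_num)]
    linarith
  set f : E3 → E3 := fun y => y + e • gr K y with hf
  have hlip : LipschitzWith (Real.toNNReal C) (gr K) := by
    refine lipschitzWith_of_nnnorm_fderiv_le (𝕜 := ℝ) (fun y => h.gr_diff y) fun y => ?_
    rw [← NNReal.coe_le_coe, Real.coe_toNNReal _ hC0]
    exact hC y
  have happ : ApproximatesLinearOn f ((ContinuousLinearEquiv.refl ℝ E3 : E3 ≃L[ℝ] E3) :
      E3 →L[ℝ] E3) Set.univ (1 / 2 : NNReal) := by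
    intro x _ y _
    have h1 : f x - f y - ((ContinuousLinearEquiv.refl ℝ E3 : E3 ≃L[ℝ] E3) : E3 →L[ℝ] E3) (x - y)
        = e • (gr K x - gr K y) := by
      simp only [hf, ContinuousLinearEquiv.coe_coe, ContinuousLinearEquiv.refl_apply, smul_sub]
      abel
    rw [h1, norm_smul, Real.norm_of_nonneg he0.le]
    have h2 := hlip.norm_sub_le x y
    rw [Real.coe_toNNReal _ hC0] at h2
    calc e * ‖gr K x - gr K y‖ ≤ e * (C * ‖x - y‖) := mul_le_mul_of_nonneg_left h2 he0.le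
      _ = (e * C) * ‖x - y‖ := by ring
      _ ≤ (1 / 2) * ‖x - y‖ := mul_le_mul_of_nonneg_right heC (norm_nonneg _)
      _ = ((1 / 2 : NNReal) : ℝ) * ‖x - y‖ := by norm_num
  have hc : Subsingleton E3 ∨ (1 / 2 : NNReal) <
      ‖((ContinuousLinearEquiv.refl ℝ E3 : E3 ≃L[ℝ] E3).symm : E3 →L[ℝ] E3)‖₊⁻¹ := by
    right
    have h1 : ‖((ContinuousLinearEquiv.refl ℝ E3 : E3 ≃L[ℝ] E3).symm : E3 →L[ℝ] E3)‖₊ = 1 := by
      rw [← NNReal.coe_inj]
      exact ContinuousLinearMap.norm_id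
    rw [h1, inv_one]
    exact NNReal.half_lt_self one_ne_zero
  have hsm : ∀ y, ‖-(e • fderiv ℝ (gr K) y)‖ < 1 := by
    intro y
    rw [norm_neg, norm_smul, Real.norm_of_nonneg he0.le]
    calc e * ‖fderiv ℝ (gr K) y‖ ≤ e * C := mul_le_mul_of_nonneg_left (hC y) he0.le
      _ ≤ 1 / 2 := heC
      _ < 1 := by norm_num
  refine ⟨e, happ.toHomeomorph f hc, fun y => ContinuousLinearEquiv.unitsEquiv ℝ E3
    (Units.oneSub (-(e • fderiv ℝ (gr K) y)) (hsm y)), he0, fun y => rfl, fun y => ?_,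
    fun y w => ?_⟩
  · have h1 : HasFDerivAt f (ContinuousLinearMap.id ℝ E3 + e • fderiv ℝ (gr K) y) y :=
      (hasFDerivAt_id y).add ((h.gr_diff y).hasFDerivAt.const_smul e)
    have h2 : ((ContinuousLinearEquiv.unitsEquiv ℝ E3
        (Units.oneSub (-(e • fderiv ℝ (gr K) y)) (hsm y)) : E3 ≃L[ℝ] E3) : E3 →L[ℝ] E3) =
        ContinuousLinearMap.id ℝ E3 + e • fderiv ℝ (gr K) y := by
      ext w
      simp [ContinuousLinearEquiv.unitsEquiv_apply]
    rw [h2]
    exact h1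
  · simp [ContinuousLinearEquiv.unitsEquiv_apply]

/-- the surface -/
theorem Dat.surface (h : Dat K) (N : E3)
    (hns : ∀ y : E3, ‖y‖ = 1 → y ≠ N → NonScalar K y) :
    ∃ F : E3 → ℝ, (∀ n : ℕ, ContDiff ℝ n F) ∧ IsCompact {x : E3 | F x = 0} ∧
      (∀ x : E3, F x = 0 → fderiv ℝ F x ≠ 0) ∧
      Nonempty (↥{x : E3 | F x = 0} ≃ₜ ↥(Metric.sphere (0 : E3) 1)) ∧
      ∀ p q : E3, F p = 0 → F q = 0 → Umb F p → Umb F q → p = q := by
  obtain ⟨e, Ψ, T, he, hΨ, hT, hTw⟩ := h.exists_homeo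
  have hΨsm : ContDiff ℝ ∞ Ψ := by
    have h1 : (Ψ : E3 → E3) = fun y => y + e • gr K y := funext hΨ
    rw [h1]
    exact contDiff_id.add (h.gr_smooth.const_smul e)
  have hΦsm : ContDiff ℝ ∞ Ψ.symm := Ψ.contDiff_symm hT hΨsm
  set F : E3 → ℝ := fun x => (‖Ψ.symm x‖ ^ 2 - 1) / 2 with hF
  have hFsm : ContDiff ℝ ∞ F := ((hΦsm.norm_sq ℝ).sub contDiff_const).div_const 2
  have hF0 : ∀ x, F x = 0 ↔ ‖Ψ.symm x‖ = 1 := by
    intro x
    simp only [hF]
    constructor
    · intro h0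
      have h1 : ‖Ψ.symm x‖ ^ 2 = 1 := by linarith
      nlinarith [norm_nonneg (Ψ.symm x)]
    · intro h0
      rw [h0]; norm_num
  have hFd : ∀ x, DifferentiableAt ℝ F x := fun x => hFsm.contDiffAt.differentiableAt (by simp)
  -- the chain rule
  have hchain : ∀ y w, fderiv ℝ F (Ψ y) (T y w) = inner ℝ y w := by
    intro y w
    have h1 : HasFDerivAt (fun z => F (Ψ z)) ((fderiv ℝ F (Ψ y)).comp (T y : E3 →L[ℝ] E3)) y :=
      (hFd _).hasFDerivAt.comp y (hT y)
    have h2 : (fun z => F (Ψ z)) = fun z : E3 => (‖z‖ ^ 2 - 1) / 2 := by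
      funext z
      simp [hF]
    have h3 : HasFDerivAt (fun z : E3 => (‖z‖ ^ 2 - 1) / 2)
        ((2 : ℝ)⁻¹ • (2 • (innerSL ℝ y))) y := by
      have := ((hasStrictFDerivAt_norm_sq y).hasFDerivAt.sub_const 1).mul_const (2 : ℝ)⁻¹
      simpa [div_eq_mul_inv] using this
    rw [h2] at h1
    have h4 := congrArg (fun S : E3 →L[ℝ] ℝ => S w) (h1.unique h3)
    simp only [ContinuousLinearMap.comp_apply] at h4
    have h5 : ((2 : ℝ)⁻¹ • (2 • (innerSL ℝ y))) w = inner ℝ y w := by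
      simp
    rw [h5] at h4
    exact h4
  -- the normal component
  have hTin : ∀ y, 1 / 2 < ‖y‖ → ∀ w, inner ℝ y (T y w) = inner ℝ y w := by
    intro y hy w
    rw [hTw, inner_add_right, inner_smul_right, h.inner_self_fderiv_gr hy, mul_zero, add_zero]
  have hgrad : ∀ x, 1 / 2 < ‖Ψ.symm x‖ → fderiv ℝ F x = innerSL ℝ (Ψ.symm x) := by
    intro x hx
    ext v
    set y := Ψ.symm x with hy
    have h1 := hchain y ((T y).symm v)
    rw [ContinuousLinearEquiv.apply_symm_apply] at h1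
    have h2 := hTin y hx ((T y).symm v)
    rw [ContinuousLinearEquiv.apply_symm_apply] at h2
    have h3 : Ψ y = x := Ψ.apply_symm_apply x
    rw [h3] at h1
    rw [h1, innerSL_apply_apply, h2]
  refine ⟨F, fun n => hFsm.of_le (by exact_mod_cast le_top), ?_, ?_, ?_, ?_⟩
  · have h1 : {x : E3 | F x = 0} = Ψ '' sphere (0 : E3) 1 := by
      ext x
      rw [Set.mem_ofPred_eq, hF0, Ψ.image_eq_preimage_symm, Set.mem_preimage,
        mem_sphere_zero_iff_norm]
    rw [h1]
    exact (isCompact_sphere _ _).image Ψ.continuous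
  · intro x hx h0
    have h1 := hchain (Ψ.symm x) (Ψ.symm x)
    rw [Ψ.apply_symm_apply, h0, real_inner_self_eq_norm_sq, (hF0 x).1 hx] at h1
    norm_num at h1
  · refine ⟨Homeomorph.subtype Ψ.symm fun x => ?_⟩
    rw [Set.mem_ofPred_eq, hF0, mem_sphere_zero_iff_norm]
  · have key : ∀ p, F p = 0 → Umb F p → Ψ.symm p = N := by
      intro p hp hu
      by_contra hne
      set y := Ψ.symm p with hy
      have hy1 : ‖y‖ = 1 := (hF0 p).1 hp
      have hyh : 1 / 2 < ‖y‖ := by rw [hy1]; norm_num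
      apply hns y hy1 hne
      obtain ⟨c, hc⟩ := hu
      have hg : fderiv ℝ F p = innerSL ℝ y := hgrad p hyh
      have hpy : Ψ y = p := Ψ.apply_symm_apply p
      -- the derivative of the inverse map
      have hΦ : HasFDerivAt Ψ.symm ((T y).symm : E3 →L[ℝ] E3) p := by
        have h1 : HasFDerivAt Ψ (T y : E3 →L[ℝ] E3) (Ψ.symm p) := hT y
        exact Ψ.toOpenPartialHomeomorph.hasFDerivAt_symm (Set.mem_univ p) h1
      have h2 : fderiv ℝ (fderiv ℝ F) p = (innerSL ℝ).comp ((T y).symm : E3 →L[ℝ] E3) := by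
        have h3 : fderiv ℝ F =ᶠ[𝓝 p] fun x => innerSL ℝ (Ψ.symm x) := by
          have h4 : ∀ᶠ x in 𝓝 p, 1 / 2 < ‖Ψ.symm x‖ :=
            (isOpen_lt continuous_const Ψ.symm.continuous.norm).mem_nhds hyh
          filter_upwards [h4] with x hx using hgrad x hx
        have h5 : HasFDerivAt (fun x => innerSL ℝ (Ψ.symm x))
            ((innerSL ℝ).comp ((T y).symm : E3 →L[ℝ] E3)) p :=
          (innerSL ℝ (E := E3)).hasFDerivAt.comp p hΦ
        exact (h5.congr_of_eventuallyEq h3).fderiv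
      have h6 : ∀ u v : E3, inner ℝ y u = 0 → inner ℝ y v = 0 →
          inner ℝ ((T y).symm u) v = c * inner ℝ u v := by
        intro u v hu hv
        have h7 := hc u v (by rw [hg]; exact hu) (by rw [hg]; exact hv)
        rw [h2] at h7
        exact h7
      have h8 : ∀ u : E3, inner ℝ y u = 0 → (T y).symm u = c • u := by
        intro u hu
        have h9 : inner ℝ y ((T y).symm u) = 0 := by
          rw [← hTin y hyh, ContinuousLinearEquiv.apply_symm_apply]
          exact hu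
        have h10 : inner ℝ y ((T y).symm u - c • u) = 0 := by
          rw [inner_sub_right, h9, inner_smul_right, hu, mul_zero, sub_zero]
        have h11 := h6 u _ hu h10
        have h12 : inner ℝ ((T y).symm u - c • u) ((T y).symm u - c • u) = 0 := by
          rw [inner_sub_left (𝕜 := ℝ) ((T y).symm u), h11, inner_smul_left]
          simp
        exact sub_eq_zero.1 (inner_self_eq_zero.1 h12)
      have h13 : ∀ u : E3, inner ℝ y u = 0 → u = c • (u + e • fderiv ℝ (gr K) y u) := by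
        intro u hu
        have h14 := congrArg (T y) (h8 u hu)
        rw [ContinuousLinearEquiv.apply_symm_apply, map_smul, hTw] at h14
        exact h14
      refine ⟨(1 / c - 1) / e, fun u v hu hv => ?_⟩
      rw [← h.inner_fderiv_gr]
      have h15 := h13 u hu
      rcases eq_or_ne c 0 with hc0 | hc0
      · rw [hc0, zero_smul] at h15
        rw [h15]; simp
      · have h16 : inner ℝ u v = c * (inner ℝ u v + e * inner ℝ (fderiv ℝ (gr K) y u) v) := by
          conv_lhs => rw [h15]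
          rw [inner_smul_left, inner_add_left, inner_smul_left]
          simp
        have h17 : inner ℝ (fderiv ℝ (gr K) y u) v * e * c = inner ℝ u v * (1 - c) := by
          linarith
        field_simp
        linarith
    intro p q hp hq hup huq
    have h1 := key p hp hup
    have h2 := key q hq huq
    exact Ψ.symm.injective (h1.trans h2.symm)

/-- cutting off a homogeneous function near the origin -/
theorem exists_dat (K : E3 → ℝ) (hK : ∀ y : E3, y ≠ 0 → ContDiffAt ℝ ∞ K y)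
    (hom : ∀ y : E3, y ≠ 0 → ∀ r : ℝ, 0 < r → K (r • y) = r * K y) :
    ∃ K' : E3 → ℝ, Dat K' ∧ ∀ y : E3, 1 / 2 < ‖y‖ → K' y = K y := by
  set K' : E3 → ℝ := fun y => Real.smoothTransition (8 * ‖y‖ ^ 2 - 1) * K y with hK'
  have heq : ∀ y : E3, 1 / 2 < ‖y‖ → K' y = K y := by
    intro y hy
    have h1 : (1 : ℝ) ≤ 8 * ‖y‖ ^ 2 - 1 := by nlinarith
    simp only [hK', Real.smoothTransition.one_of_one_le h1, one_mul]
  refine ⟨K', ⟨?_, ?_⟩, heq⟩
  · rw [contDiff_iff_contDiffAt]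
    intro y
    rcases eq_or_ne y 0 with h0 | h0
    · have h1 : K' =ᶠ[𝓝 y] fun _ => 0 := by
        have h2 : ∀ᶠ z in 𝓝 y, 8 * ‖z‖ ^ 2 - 1 < 0 := by
          have hc : Continuous fun z : E3 => 8 * ‖z‖ ^ 2 - 1 := by fun_prop
          refine (isOpen_lt hc continuous_const).mem_nhds ?_
          show 8 * ‖y‖ ^ 2 - 1 < 0
          rw [h0]; norm_num
        filter_upwards [h2] with z hz
        simp only [hK', Real.smoothTransition.zero_of_nonpos hz.le, zero_mul]
      exact contDiffAt_const.congr_of_eventuallyEq h1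
    · have h1 : ContDiffAt ℝ ∞ (fun z : E3 => Real.smoothTransition (8 * ‖z‖ ^ 2 - 1)) y := by
        have h2 : ContDiff ℝ ∞ (fun z : E3 => 8 * ‖z‖ ^ 2 - 1) :=
          (contDiff_const.mul (contDiff_norm_sq ℝ)).sub contDiff_const
        exact (Real.smoothTransition.contDiff.comp h2).contDiffAt
      exact h1.mul (hK y h0)
  · intro y hy r hr hry
    have hy0 : y ≠ 0 := by
      rintro rfl
      rw [norm_zero] at hy
      linarith
    rw [heq _ hry, heq _ hy, hom y hy0 r hr]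

/-- **geometry part**: a homogeneous function with non-scalar Hessian at all points of the
sphere except one gives the frozen statement -/
theorem geo (K : E3 → ℝ) (hK : ∀ y : E3, y ≠ 0 → ContDiffAt ℝ ∞ K y)
    (hom : ∀ y : E3, y ≠ 0 → ∀ r : ℝ, 0 < r → K (r • y) = r * K y) (N : E3)
    (hns : ∀ y : E3, ‖y‖ = 1 → y ≠ N → NonScalar K y) :
    ¬ (∀ F : EuclideanSpace ℝ (Fin 3) → ℝ,
    (∀ n : ℕ, ContDiff ℝ n F) →
    IsCompact {x : EuclideanSpace ℝ (Fin 3) | F x = 0} →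
    (∀ x : EuclideanSpace ℝ (Fin 3), F x = 0 → fderiv ℝ F x ≠ 0) →
    Nonempty (↥{x : EuclideanSpace ℝ (Fin 3) | F x = 0} ≃ₜ
      ↥(Metric.sphere (0 : EuclideanSpace ℝ (Fin 3)) 1)) →
    ∃ p q : EuclideanSpace ℝ (Fin 3), F p = 0 ∧ F q = 0 ∧ p ≠ q ∧
      (∃ c : ℝ, ∀ u v : EuclideanSpace ℝ (Fin 3),
        fderiv ℝ F p u = 0 → fderiv ℝ F p v = 0 →
          fderiv ℝ (fderiv ℝ F) p u v = c * inner ℝ u v) ∧
      (∃ c : ℝ, ∀ u v : EuclideanSpace ℝ (Fin 3),
        fderiv ℝ F q u = 0 → fderiv ℝ F q v = 0 →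
          fderiv ℝ (fderiv ℝ F) q u v = c * inner ℝ u v)) := by
  obtain ⟨K', hD, heq⟩ := exists_dat K hK hom
  have hns' : ∀ y : E3, ‖y‖ = 1 → y ≠ N → NonScalar K' y := by
    intro y hy hyN
    have h1 : K' =ᶠ[𝓝 y] K := by
      filter_upwards [ev_half (show 1 / 2 < ‖y‖ by rw [hy]; norm_num)] with z hz using heq z hz
    have h2 : fderiv ℝ (fderiv ℝ K') y = fderiv ℝ (fderiv ℝ K) y := h1.fderiv.fderiv_eq
    have h3 := hns y hy hyN
    unfold NonScalar at h3 ⊢
    rw [h2]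
    exact h3
  obtain ⟨F, h1, h2, h3, h4, h5⟩ := hD.surface N hns'
  intro hall
  obtain ⟨p, q, hp, hq, hpq, hup, huq⟩ := hall F h1 h2 h3 h4
  exact hpq (h5 p q hp hq hup huq)

end CarNeg
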