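import Mathlib

/-!
# From a flat function of `(log |z|, arg z)` to a smooth function of `z`
-/

set_option autoImplicit false

open scoped ContDiff
open Filter Topology Metric

namespace CarNeg

/-- first partial derivative -/
noncomputable def dt (w : ℝ × ℝ → ℝ) (p : ℝ × ℝ) : ℝ := fderiv ℝ w p (1, 0)

/-- second partial derivative -/
noncomputable def dx (w : ℝ × ℝ → ℝ) (p : ℝ × ℝ) : ℝ := fderiv ℝ w p (0, 1)

theorem smooth_dt {w : ℝ × ℝ → ℝ} (h : ContDiff ℝ ∞ w) : ContDiff ℝ ∞ (dt w) :=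
  (h.fderiv_right (by simp)).clm_apply contDiff_const

theorem smooth_dx {w : ℝ × ℝ → ℝ} (h : ContDiff ℝ ∞ w) : ContDiff ℝ ∞ (dx w) :=
  (h.fderiv_right (by simp)).clm_apply contDiff_const

theorem diff_of {w : ℝ × ℝ → ℝ} (h : ContDiff ℝ ∞ w) (p : ℝ × ℝ) : DifferentiableAt ℝ w p :=
  h.contDiffAt.differentiableAt (by simp)

theorem fderiv_eq_dt_dx (w : ℝ × ℝ → ℝ) (p : ℝ × ℝ) (a b : ℝ) :
    fderiv ℝ w p (a, b) = a * dt w p + b * dx w p := by
  have h : ((a, b) : ℝ × ℝ) = a • (1, 0) + b • (0, 1) := by simp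
  rw [h, map_add, map_smul, map_smul]
  rfl

theorem dt_mul {f g : ℝ × ℝ → ℝ} (hf : ContDiff ℝ ∞ f) (hg : ContDiff ℝ ∞ g) :
    dt (fun p => f p * g p) = fun p => dt f p * g p + f p * dt g p := by
  funext p
  unfold dt
  rw [fderiv_fun_mul (diff_of hf p) (diff_of hg p)]
  simp [smul_eq_mul]
  ring

theorem dx_mul {f g : ℝ × ℝ → ℝ} (hf : ContDiff ℝ ∞ f) (hg : ContDiff ℝ ∞ g) :
    dx (fun p => f p * g p) = fun p => dx f p * g p + f p * dx g p := by
  funext p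
  unfold dx
  rw [fderiv_fun_mul (diff_of hf p) (diff_of hg p)]
  simp [smul_eq_mul]
  ring

theorem dt_add {f g : ℝ × ℝ → ℝ} (hf : ContDiff ℝ ∞ f) (hg : ContDiff ℝ ∞ g) :
    dt (fun p => f p + g p) = fun p => dt f p + dt g p := by
  funext p
  unfold dt
  rw [fderiv_fun_add (diff_of hf p) (diff_of hg p)]
  rfl

theorem dx_add {f g : ℝ × ℝ → ℝ} (hf : ContDiff ℝ ∞ f) (hg : ContDiff ℝ ∞ g) :
    dx (fun p => f p + g p) = fun p => dx f p + dx g p := by
  funext p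
  unfold dx
  rw [fderiv_fun_add (diff_of hf p) (diff_of hg p)]
  rfl

theorem dt_neg (f : ℝ × ℝ → ℝ) : dt (fun p => - f p) = fun p => - dt f p := by
  funext p
  unfold dt
  rw [fderiv_fun_neg]
  rfl

theorem dx_neg (f : ℝ × ℝ → ℝ) : dx (fun p => - f p) = fun p => - dx f p := by
  funext p
  unfold dx
  rw [fderiv_fun_neg]
  rfl

/-- `e^(-t) cos x` -/
noncomputable def EC (p : ℝ × ℝ) : ℝ := Real.exp (-p.1) * Real.cos p.2

/-- `e^(-t) sin x` -/
noncomputable def ES (p : ℝ × ℝ) : ℝ := Real.exp (-p.1) * Real.sin p.2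

theorem smooth_EC : ContDiff ℝ ∞ EC :=
  (Real.contDiff_exp.comp contDiff_fst.neg).mul (Real.contDiff_cos.comp contDiff_snd)

theorem smooth_ES : ContDiff ℝ ∞ ES :=
  (Real.contDiff_exp.comp contDiff_fst.neg).mul (Real.contDiff_sin.comp contDiff_snd)

theorem hasFDerivAt_EC (p : ℝ × ℝ) : HasFDerivAt EC
    ((-EC p) • ContinuousLinearMap.fst ℝ ℝ ℝ + (-ES p) • ContinuousLinearMap.snd ℝ ℝ ℝ) p := by
  have h1 : HasFDerivAt (fun p : ℝ × ℝ => Real.exp (-p.1))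
      (Real.exp (-p.1) • (-ContinuousLinearMap.fst ℝ ℝ ℝ)) p := hasFDerivAt_fst.neg.exp
  have h2 : HasFDerivAt (fun p : ℝ × ℝ => Real.cos p.2)
      ((-Real.sin p.2) • ContinuousLinearMap.snd ℝ ℝ ℝ) p := hasFDerivAt_snd.cos
  have h3 := h1.mul h2
  refine h3.congr_fderiv ?_
  ext <;> (simp [EC, ES]; try ring)

theorem hasFDerivAt_ES (p : ℝ × ℝ) : HasFDerivAt ES
    ((-ES p) • ContinuousLinearMap.fst ℝ ℝ ℝ + (EC p) • ContinuousLinearMap.snd ℝ ℝ ℝ) p := by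
  have h1 : HasFDerivAt (fun p : ℝ × ℝ => Real.exp (-p.1))
      (Real.exp (-p.1) • (-ContinuousLinearMap.fst ℝ ℝ ℝ)) p := hasFDerivAt_fst.neg.exp
  have h2 : HasFDerivAt (fun p : ℝ × ℝ => Real.sin p.2)
      ((Real.cos p.2) • ContinuousLinearMap.snd ℝ ℝ ℝ) p := hasFDerivAt_snd.sin
  have h3 := h1.mul h2
  refine h3.congr_fderiv ?_
  ext <;> (simp [EC, ES]; try ring)

theorem dt_EC : dt EC = fun p => - EC p := by
  funext p; unfold dt; rw [(hasFDerivAt_EC p).fderiv]; simp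

theorem dx_EC : dx EC = fun p => - ES p := by
  funext p; unfold dx; rw [(hasFDerivAt_EC p).fderiv]; simp

theorem dt_ES : dt ES = fun p => - ES p := by
  funext p; unfold dt; rw [(hasFDerivAt_ES p).fderiv]; simp

theorem dx_ES : dx ES = fun p => EC p := by
  funext p; unfold dx; rw [(hasFDerivAt_ES p).fderiv]; simp

/-- flat of order zero as `t → -∞` -/
def FlatAt (w : ℝ × ℝ → ℝ) : Prop :=
  ∀ N : ℕ, ∃ C : ℝ, ∀ t ≤ (0 : ℝ), ∀ x : ℝ, |w (t, x)| ≤ C * Real.exp (N * t)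

/-- flat together with all partial derivatives of order at most `k` -/
def PF : ℕ → (ℝ × ℝ → ℝ) → Prop
  | 0, w => FlatAt w
  | (k + 1), w => FlatAt w ∧ PF k (dt w) ∧ PF k (dx w)

theorem PF.flat {k : ℕ} {w : ℝ × ℝ → ℝ} (h : PF k w) : FlatAt w := by
  cases k with
  | zero => exact h
  | succ k => exact h.1

theorem PF.pred : ∀ {k : ℕ} {w : ℝ × ℝ → ℝ}, PF (k + 1) w → PF k w
  | 0, _, h => h.1
  | (_ + 1), _, h => ⟨h.1, PF.pred h.2.1, PF.pred h.2.2⟩

theorem FlatAt.add {f g : ℝ × ℝ → ℝ} (hf : FlatAt f) (hg : FlatAt g) :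
    FlatAt (fun p => f p + g p) := by
  intro N
  obtain ⟨C, hC⟩ := hf N
  obtain ⟨D, hD⟩ := hg N
  refine ⟨C + D, fun t ht x => ?_⟩
  calc |f (t, x) + g (t, x)| ≤ |f (t, x)| + |g (t, x)| := abs_add_le _ _
    _ ≤ C * Real.exp (N * t) + D * Real.exp (N * t) := add_le_add (hC t ht x) (hD t ht x)
    _ = _ := by ring

theorem FlatAt.neg {f : ℝ × ℝ → ℝ} (hf : FlatAt f) : FlatAt (fun p => - f p) := by
  intro N
  obtain ⟨C, hC⟩ := hf N
  exact ⟨C, fun t ht x => by rw [abs_neg]; exact hC t ht x⟩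

theorem FlatAt.mul {f g : ℝ × ℝ → ℝ} (hg : ∀ t x, |g (t, x)| ≤ Real.exp (-t)) (hf : FlatAt f) :
    FlatAt (fun p => g p * f p) := by
  intro N
  obtain ⟨C, hC⟩ := hf (N + 1)
  refine ⟨C, fun t ht x => ?_⟩
  rw [abs_mul]
  calc |g (t, x)| * |f (t, x)| ≤ Real.exp (-t) * (C * Real.exp ((N + 1 : ℕ) * t)) :=
        mul_le_mul (hg t x) (hC t ht x) (abs_nonneg _) (Real.exp_pos _).le
    _ = C * (Real.exp (-t) * Real.exp ((N + 1 : ℕ) * t)) := by ring
    _ = C * Real.exp (N * t) := by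
        rw [← Real.exp_add]; congr 2; push_cast; ring

theorem abs_EC_le (t x : ℝ) : |EC (t, x)| ≤ Real.exp (-t) := by
  show |Real.exp (-t) * Real.cos x| ≤ _
  rw [abs_mul, abs_of_pos (Real.exp_pos _)]
  exact mul_le_of_le_one_right (Real.exp_pos _).le (Real.abs_cos_le_one x)

theorem abs_ES_le (t x : ℝ) : |ES (t, x)| ≤ Real.exp (-t) := by
  show |Real.exp (-t) * Real.sin x| ≤ _
  rw [abs_mul, abs_of_pos (Real.exp_pos _)]
  exact mul_le_of_le_one_right (Real.exp_pos _).le (Real.abs_sin_le_one x)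

theorem PF.add : ∀ {k : ℕ} {f g : ℝ × ℝ → ℝ}, ContDiff ℝ ∞ f → ContDiff ℝ ∞ g → PF k f → PF k g →
    PF k (fun p => f p + g p)
  | 0, _, _, _, _, hf, hg => FlatAt.add hf hg
  | (k + 1), f, g, sf, sg, hf, hg => by
    refine ⟨hf.1.add hg.1, ?_, ?_⟩
    · rw [dt_add sf sg]; exact PF.add (smooth_dt sf) (smooth_dt sg) hf.2.1 hg.2.1
    · rw [dx_add sf sg]; exact PF.add (smooth_dx sf) (smooth_dx sg) hf.2.2 hg.2.2

theorem PF.neg : ∀ {k : ℕ} {f : ℝ × ℝ → ℝ}, PF k f → PF k (fun p => - f p)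
  | 0, _, hf => FlatAt.neg hf
  | (k + 1), f, hf => by
    refine ⟨hf.1.neg, ?_, ?_⟩
    · rw [dt_neg]; exact PF.neg hf.2.1
    · rw [dx_neg]; exact PF.neg hf.2.2

theorem PF.mulE : ∀ {k : ℕ} {f : ℝ × ℝ → ℝ}, ContDiff ℝ ∞ f → PF k f →
    PF k (fun p => EC p * f p) ∧ PF k (fun p => ES p * f p)
  | 0, _, _, hf => ⟨FlatAt.mul abs_EC_le hf, FlatAt.mul abs_ES_le hf⟩
  | (k + 1), f, sf, hf => by
    have h0 := PF.mulE sf hf.pred
    have h1 := PF.mulE (smooth_dt sf) hf.2.1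
    have h2 := PF.mulE (smooth_dx sf) hf.2.2
    have s0 := smooth_EC.mul sf
    have s0' := smooth_ES.mul sf
    have s1 := smooth_EC.mul (smooth_dt sf)
    have s1' := smooth_ES.mul (smooth_dt sf)
    have s2 := smooth_EC.mul (smooth_dx sf)
    have s2' := smooth_ES.mul (smooth_dx sf)
    refine ⟨⟨FlatAt.mul abs_EC_le hf.1, ?_, ?_⟩, ⟨FlatAt.mul abs_ES_le hf.1, ?_, ?_⟩⟩
    · rw [dt_mul smooth_EC sf, dt_EC]
      have := PF.add s0.neg s1 h0.1.neg h1.1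
      simpa only [neg_mul] using this
    · rw [dx_mul smooth_EC sf, dx_EC]
      have := PF.add s0'.neg s2 h0.2.neg h2.1
      simpa only [neg_mul] using this
    · rw [dt_mul smooth_ES sf, dt_ES]
      have := PF.add s0'.neg s1' h0.2.neg h1.2
      simpa only [neg_mul] using this
    · rw [dx_mul smooth_ES sf, dx_ES]
      exact PF.add s0 s2' h0.1 h2.2

/-- the derivative in direction `1` in the coordinates `(log |z|, arg z)` -/
noncomputable def D1 (w : ℝ × ℝ → ℝ) (p : ℝ × ℝ) : ℝ := EC p * dt w p + -(ES p * dx w p)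

/-- the derivative in direction `i` in the coordinates `(log |z|, arg z)` -/
noncomputable def D2 (w : ℝ × ℝ → ℝ) (p : ℝ × ℝ) : ℝ := ES p * dt w p + EC p * dx w p

/-- the class of flat functions -/
structure Cl (w : ℝ × ℝ → ℝ) : Prop where
  smooth : ContDiff ℝ ∞ w
  per : ∀ t x, w (t, x + 2 * Real.pi) = w (t, x)
  flat : ∀ k, PF k w

theorem per_fderiv {w : ℝ × ℝ → ℝ} (h : ∀ t x, w (t, x + 2 * Real.pi) = w (t, x)) (t x : ℝ) :
    fderiv ℝ w (t, x + 2 * Real.pi) = fderiv ℝ w (t, x) := by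
  have h1 : (fun p : ℝ × ℝ => w (p + (0, 2 * Real.pi))) = w := by
    funext p
    obtain ⟨a, b⟩ := p
    simp only [Prod.mk_add_mk, add_zero]
    exact h a b
  have h2 := fderiv_comp_add_right (𝕜 := ℝ) (f := w) (x := (t, x)) (0, 2 * Real.pi)
  rw [h1] at h2
  rw [h2]
  simp

theorem Cl.D1 {w : ℝ × ℝ → ℝ} (h : Cl w) : Cl (D1 w) where
  smooth := (smooth_EC.mul (smooth_dt h.smooth)).add (smooth_ES.mul (smooth_dx h.smooth)).neg
  per t x := by
    simp only [CarNeg.D1, EC, ES, dt, dx, per_fderiv h.per, Real.cos_add_two_pi,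
      Real.sin_add_two_pi]
  flat k := PF.add (smooth_EC.mul (smooth_dt h.smooth)) (smooth_ES.mul (smooth_dx h.smooth)).neg
    (PF.mulE (smooth_dt h.smooth) (h.flat (k + 1)).2.1).1
    (PF.mulE (smooth_dx h.smooth) (h.flat (k + 1)).2.2).2.neg

theorem Cl.D2 {w : ℝ × ℝ → ℝ} (h : Cl w) : Cl (D2 w) where
  smooth := (smooth_ES.mul (smooth_dt h.smooth)).add (smooth_EC.mul (smooth_dx h.smooth))
  per t x := by
    simp only [CarNeg.D2, EC, ES, dt, dx, per_fderiv h.per, Real.cos_add_two_pi,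
      Real.sin_add_two_pi]
  flat k := PF.add (smooth_ES.mul (smooth_dt h.smooth)) (smooth_EC.mul (smooth_dx h.smooth))
    (PF.mulE (smooth_dt h.smooth) (h.flat (k + 1)).2.1).2
    (PF.mulE (smooth_dx h.smooth) (h.flat (k + 1)).2.2).1

/-- the function of `z` -/
noncomputable def WW (w : ℝ × ℝ → ℝ) (z : ℂ) : ℝ :=
  if z = 0 then 0 else w (Real.log ‖z‖, Complex.arg z)

theorem per_int {w : ℝ × ℝ → ℝ} (h : ∀ t x, w (t, x + 2 * Real.pi) = w (t, x)) (t x : ℝ) (n : ℤ) :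
    w (t, x + n * (2 * Real.pi)) = w (t, x) := by
  have h1 : Function.Periodic (fun x => w (t, x)) (2 * Real.pi) := fun x => h t x
  exact h1.int_mul n x

theorem WW_exp {w : ℝ × ℝ → ℝ} (h : ∀ t x, w (t, x + 2 * Real.pi) = w (t, x)) (ζ : ℂ) :
    WW w (Complex.exp ζ) = w (ζ.re, ζ.im) := by
  have h0 : Complex.exp ζ ≠ 0 := Complex.exp_ne_zero ζ
  have h1 := Complex.exp_log h0
  obtain ⟨n, hn⟩ := Complex.exp_eq_exp_iff_exists_int.1 h1
  have h2 : Real.log ‖Complex.exp ζ‖ = ζ.re := by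
    rw [Complex.norm_exp, Real.log_exp]
  have h3 : Complex.arg (Complex.exp ζ) = ζ.im + n * (2 * Real.pi) := by
    have h4 := congrArg Complex.im hn
    rw [Complex.log_im] at h4
    rw [h4]
    simp
  rw [WW, if_neg h0, h2, h3, per_int h]

theorem hasFDerivAt_WW {w : ℝ × ℝ → ℝ} (h : Cl w) (z : ℂ) :
    HasFDerivAt (WW w) ((WW (D1 w) z) • Complex.reCLM + (WW (D2 w) z) • Complex.imCLM) z := by
  rcases eq_or_ne z 0 with rfl | hz
  · have h1 : ((WW (D1 w) 0) • Complex.reCLM + (WW (D2 w) 0) • Complex.imCLM : ℂ →L[ℝ] ℝ) = 0 := by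
      simp [WW]
    rw [h1]
    obtain ⟨C, hC⟩ := (h.flat 0 : FlatAt w) 2
    have h2 : (fun z : ℂ => WW w z) =O[𝓝 0] fun z => ‖z‖ ^ 2 := by
      refine Asymptotics.IsBigO.of_bound |C| ?_
      filter_upwards [ball_mem_nhds (0 : ℂ) one_pos] with z hz
      rcases eq_or_ne z 0 with h0 | h0
      · simp [WW, h0]
      · rw [WW, if_neg h0, Real.norm_eq_abs, Real.norm_eq_abs, abs_of_nonneg (sq_nonneg ‖z‖)]
        have hn : 0 < ‖z‖ := norm_pos_iff.2 h0
        have hz1 : ‖z‖ < 1 := by simpa using hz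
        have h3 := hC (Real.log ‖z‖) (Real.log_nonpos hn.le hz1.le) (Complex.arg z)
        have h4 : Real.exp ((2 : ℕ) * Real.log ‖z‖) = ‖z‖ ^ 2 := by
          rw [← Real.log_pow, Real.exp_log (by positivity)]
        rw [h4] at h3
        exact h3.trans (mul_le_mul_of_nonneg_right (le_abs_self C) (by positivity))
    rw [hasFDerivAt_iff_isLittleO_nhds_zero]
    have h5 : (fun z : ℂ => ‖z‖ ^ 2) =o[𝓝 0] fun z => z := by
      have := (Asymptotics.isLittleO_norm_pow_id (E' := ℂ) (n := 2) (by norm_num))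
      simpa using this
    have h6 := h2.trans_isLittleO h5
    refine h6.congr_left fun z => ?_
    simp [WW]
  · -- a local logarithm
    set ζ : ℂ → ℂ := fun y => Complex.log z + Complex.log (y / z) with hζ
    have hζz : ζ z = Complex.log z := by
      simp [hζ, div_self hz]
    have hexp : ∀ y : ℂ, y ≠ 0 → Complex.exp (ζ y) = y := by
      intro y hy
      rw [hζ, Complex.exp_add, Complex.exp_log hz, Complex.exp_log (div_ne_zero hy hz)]
      field_simp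
    have hd : HasDerivAt ζ (1 / z) z := by
      have h1 : HasDerivAt (fun y : ℂ => y / z) (1 / z) z := (hasDerivAt_id z).div_const z
      have h2 := h1.clog (by rw [div_self hz]; exact Complex.one_mem_slitPlane)
      rw [div_self hz, div_one] at h2
      exact h2.const_add _
    have h1 : WW w =ᶠ[𝓝 z] fun y => w (Complex.equivRealProdCLM (ζ y)) := by
      filter_upwards [isOpen_ne.mem_nhds hz] with y hy
      conv_lhs => rw [← hexp y hy]
      rw [WW_exp h.per]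
      rfl
    have hp : Complex.equivRealProdCLM (ζ z) = (Real.log ‖z‖, Complex.arg z) := by
      rw [hζz]
      simp [Complex.equivRealProdCLM_apply, Complex.log_re, Complex.log_im]
    have h2 : HasFDerivAt (fun y => w (Complex.equivRealProdCLM (ζ y)))
        ((fderiv ℝ w (Real.log ‖z‖, Complex.arg z)).comp
          ((Complex.equivRealProdCLM : ℂ →L[ℝ] ℝ × ℝ).comp
            ((1 / z) • (1 : ℂ →L[ℝ] ℂ)))) z := by
      have h3 : HasFDerivAt ζ ((1 / z) • (1 : ℂ →L[ℝ] ℂ)) z := hd.complexToReal_fderiv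
      have h4 : HasFDerivAt (fun y => Complex.equivRealProdCLM (ζ y))
          ((Complex.equivRealProdCLM : ℂ →L[ℝ] ℝ × ℝ).comp ((1 / z) • (1 : ℂ →L[ℝ] ℂ))) z :=
        (Complex.equivRealProdCLM : ℂ →L[ℝ] ℝ × ℝ).hasFDerivAt.comp z h3
      have h5 : HasFDerivAt w (fderiv ℝ w (Real.log ‖z‖, Complex.arg z))
          (Complex.equivRealProdCLM (ζ z)) := by
        rw [hp]
        exact (diff_of h.smooth _).hasFDerivAt
      exact h5.comp z h4
    refine (h2.congr_of_eventuallyEq h1).congr_fderiv ?_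
    ext v
    set t := Real.log ‖z‖ with ht
    set θ := Complex.arg z with hθ
    have hzi : 1 / z = (Real.exp (-t) * Real.cos θ : ℝ) + (-(Real.exp (-t) * Real.sin θ) : ℝ) *
        Complex.I := by
      have h6 : z = Complex.exp (t + θ * Complex.I) := by
        conv_lhs => rw [← Complex.exp_log hz]
        congr 1
      rw [h6, one_div, ← Complex.exp_neg]
      have h7 : -((t : ℂ) + θ * Complex.I) = ((-t : ℝ) : ℂ) + ((-θ : ℝ) : ℂ) * Complex.I := by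
        push_cast; ring
      rw [h7, Complex.exp_add, Complex.exp_mul_I, ← Complex.ofReal_exp, ← Complex.ofReal_cos,
        ← Complex.ofReal_sin, Real.cos_neg, Real.sin_neg]
      push_cast
      ring
    have h8 : ((1 / z) • (1 : ℂ →L[ℝ] ℂ)) v = (1 / z) * v := rfl
    have h9 : ((fderiv ℝ w (t, θ)).comp ((Complex.equivRealProdCLM : ℂ →L[ℝ] ℝ × ℝ).comp
            ((1 / z) • (1 : ℂ →L[ℝ] ℂ)))) v =
        fderiv ℝ w (t, θ) (((1 / z) * v).re, ((1 / z) * v).im) := rfl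
    rw [h9, fderiv_eq_dt_dx, hzi]
    simp only [WW, if_neg hz, ← ht, ← hθ, CarNeg.D1, CarNeg.D2, EC, ES,
      add_apply, smul_apply, Complex.reCLM_apply,
      Complex.imCLM_apply, smul_eq_mul, Complex.mul_re, Complex.mul_im, Complex.add_re,
      Complex.add_im, Complex.ofReal_re, Complex.ofReal_im, Complex.I_re, Complex.I_im]
    ring

theorem contDiff_WW_nat : ∀ (n : ℕ) {w : ℝ × ℝ → ℝ}, Cl w → ContDiff ℝ n (WW w)
  | 0, w, h => by
    rw [Nat.cast_zero, contDiff_zero]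
    exact continuous_iff_continuousAt.2 fun z => (hasFDerivAt_WW h z).continuousAt
  | (n + 1), w, h => by
    rw [Nat.cast_add, Nat.cast_one, contDiff_succ_iff_hasFDerivAt]
    refine ⟨fun z => (WW (D1 w) z) • Complex.reCLM + (WW (D2 w) z) • Complex.imCLM, ?_,
      fun z => hasFDerivAt_WW h z⟩
    exact ((contDiff_WW_nat n h.D1).smul contDiff_const).add
      ((contDiff_WW_nat n h.D2).smul contDiff_const)

theorem contDiff_WW {w : ℝ × ℝ → ℝ} (h : Cl w) : ContDiff ℝ ∞ (WW w) :=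
  contDiff_infty.2 fun n => contDiff_WW_nat n h

theorem fderiv_WW {w : ℝ × ℝ → ℝ} (h : Cl w) : fderiv ℝ (WW w) =
    fun z => (WW (D1 w) z) • Complex.reCLM + (WW (D2 w) z) • Complex.imCLM :=
  funext fun z => (hasFDerivAt_WW h z).fderiv

theorem fderiv2_WW {w : ℝ × ℝ → ℝ} (h : Cl w) (z : ℂ) :
    fderiv ℝ (fderiv ℝ (WW w)) z 1 1 = WW (D1 (D1 w)) z ∧
    fderiv ℝ (fderiv ℝ (WW w)) z Complex.I Complex.I = WW (D2 (D2 w)) z ∧
    fderiv ℝ (fderiv ℝ (WW w)) z 1 Complex.I = WW (D1 (D2 w)) z := by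
  have h1 : HasFDerivAt (fun z => (WW (D1 w) z) • Complex.reCLM + (WW (D2 w) z) • Complex.imCLM)
      (((WW (D1 (D1 w)) z) • Complex.reCLM + (WW (D2 (D1 w)) z) • Complex.imCLM).smulRight
        Complex.reCLM + ((WW (D1 (D2 w)) z) • Complex.reCLM +
        (WW (D2 (D2 w)) z) • Complex.imCLM).smulRight Complex.imCLM) z :=
    ((hasFDerivAt_WW h.D1 z).smul_const Complex.reCLM).add
      ((hasFDerivAt_WW h.D2 z).smul_const Complex.imCLM)
  rw [fderiv_WW h, h1.fderiv]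
  refine ⟨?_, ?_, ?_⟩ <;> simp

/-! ## The substitution `x = 2 θ` and the factor `e^t` -/

/-- `e^t f (t, 2 θ)` -/
noncomputable def TT (f : ℝ × ℝ → ℝ) (p : ℝ × ℝ) : ℝ := Real.exp p.1 * f (p.1, 2 * p.2)

theorem hasFDerivAt_TT {f : ℝ × ℝ → ℝ} (hf : ContDiff ℝ ∞ f) (p : ℝ × ℝ) : HasFDerivAt (TT f)
    ((TT (fun q => f q + dt f q) p) • ContinuousLinearMap.fst ℝ ℝ ℝ +
      (TT (fun q => dx f q + dx f q) p) • ContinuousLinearMap.snd ℝ ℝ ℝ) p := by
  have h1 : HasFDerivAt (fun p : ℝ × ℝ => Real.exp p.1)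
      (Real.exp p.1 • ContinuousLinearMap.fst ℝ ℝ ℝ) p := hasFDerivAt_fst.exp
  have h2 : HasFDerivAt (fun p : ℝ × ℝ => ((p.1, 2 * p.2) : ℝ × ℝ))
      ((ContinuousLinearMap.fst ℝ ℝ ℝ).prod ((2 : ℝ) • ContinuousLinearMap.snd ℝ ℝ ℝ)) p :=
    hasFDerivAt_fst.prodMk (hasFDerivAt_snd.const_mul 2)
  have h3 : HasFDerivAt (fun p : ℝ × ℝ => f (p.1, 2 * p.2))
      ((fderiv ℝ f (p.1, 2 * p.2)).comp
        ((ContinuousLinearMap.fst ℝ ℝ ℝ).prod ((2 : ℝ) • ContinuousLinearMap.snd ℝ ℝ ℝ))) p :=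
    HasFDerivAt.comp p (g := f) (f := fun p : ℝ × ℝ => ((p.1, 2 * p.2) : ℝ × ℝ))
      (diff_of hf _).hasFDerivAt h2
  have h4 := h1.mul h3
  refine h4.congr_fderiv ?_
  ext <;> (simp [TT, fderiv_eq_dt_dx]; ring)

theorem dt_TT {f : ℝ × ℝ → ℝ} (hf : ContDiff ℝ ∞ f) : dt (TT f) = TT (fun q => f q + dt f q) := by
  funext p; unfold dt; rw [(hasFDerivAt_TT hf p).fderiv]; simp [dt]

theorem dx_TT {f : ℝ × ℝ → ℝ} (hf : ContDiff ℝ ∞ f) : dx (TT f) = TT (fun q => dx f q + dx f q) := by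
  funext p; unfold dx; rw [(hasFDerivAt_TT hf p).fderiv]; simp [dx]

theorem smooth_TT {f : ℝ × ℝ → ℝ} (hf : ContDiff ℝ ∞ f) : ContDiff ℝ ∞ (TT f) :=
  (Real.contDiff_exp.comp contDiff_fst).mul
    (hf.comp (contDiff_fst.prodMk (contDiff_const.mul contDiff_snd)))

theorem FlatAt.TT {f : ℝ × ℝ → ℝ} (hf : FlatAt f) : FlatAt (TT f) := by
  intro N
  obtain ⟨C, hC⟩ := hf N
  refine ⟨C, fun t ht x => ?_⟩
  show |Real.exp t * f (t, 2 * x)| ≤ _
  rw [abs_mul, abs_of_pos (Real.exp_pos t)]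
  calc Real.exp t * |f (t, 2 * x)| ≤ 1 * |f (t, 2 * x)| :=
        mul_le_mul_of_nonneg_right (Real.exp_le_one_iff.2 ht) (abs_nonneg _)
    _ = |f (t, 2 * x)| := one_mul _
    _ ≤ _ := hC t ht (2 * x)

theorem PF.TT : ∀ {k : ℕ} {f : ℝ × ℝ → ℝ}, ContDiff ℝ ∞ f → PF k f → PF k (TT f)
  | 0, _, _, hf => FlatAt.TT hf
  | (k + 1), f, sf, hf => by
    refine ⟨FlatAt.TT hf.1, ?_, ?_⟩
    · rw [dt_TT sf]
      exact PF.TT (sf.add (smooth_dt sf)) (PF.add sf (smooth_dt sf) hf.pred hf.2.1)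
    · rw [dx_TT sf]
      exact PF.TT ((smooth_dx sf).add (smooth_dx sf))
        (PF.add (smooth_dx sf) (smooth_dx sf) hf.2.2 hf.2.2)

theorem Cl.TT {u : ℝ × ℝ → ℝ} (h : Cl u) : Cl (TT u) where
  smooth := smooth_TT h.smooth
  per t x := by
    have h1 : 2 * (x + 2 * Real.pi) = 2 * x + 2 * Real.pi + 2 * Real.pi := by ring
    show Real.exp t * u (t, 2 * (x + 2 * Real.pi)) = Real.exp t * u (t, 2 * x)
    rw [h1, h.per, h.per]
  flat k := (h.flat k).TT h.smooth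

theorem dt_dx_comm {w : ℝ × ℝ → ℝ} (h : ContDiff ℝ ∞ w) (p : ℝ × ℝ) :
    dt (dx w) p = dx (dt w) p := by
  have hs : IsSymmSndFDerivAt ℝ w p :=
    (h.contDiffAt (x := p)).isSymmSndFDerivAt (by
      rw [minSmoothness_of_isRCLikeNormedField]; exact WithTop.coe_le_coe.2 le_top)
  have hd : DifferentiableAt ℝ (fderiv ℝ w) p :=
    (h.fderiv_right (m := ∞) (by simp)).contDiffAt.differentiableAt (by simp)
  have h1 : ∀ a b : ℝ × ℝ, fderiv ℝ (fun q => fderiv ℝ w q a) p b = fderiv ℝ (fderiv ℝ w) p b a := by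
    intro a b
    rw [fderiv_clm_apply hd (differentiableAt_const a)]
    simp
  show fderiv ℝ (fun q => fderiv ℝ w q (0, 1)) p (1, 0) =
    fderiv ℝ (fun q => fderiv ℝ w q (1, 0)) p (0, 1)
  rw [h1, h1]
  exact hs (1, 0) (0, 1)

theorem dt_D1 {w : ℝ × ℝ → ℝ} (h : ContDiff ℝ ∞ w) (p : ℝ × ℝ) :
    dt (D1 w) p = -EC p * dt w p + EC p * dt (dt w) p + ES p * dx w p - ES p * dx (dt w) p := by
  have h1 : dt (D1 w) = fun p => (dt EC p * dt w p + EC p * dt (dt w) p) +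
      -(dt ES p * dx w p + ES p * dt (dx w) p) := by
    have h2 : D1 w = fun p => (EC p * dt w p) + -(ES p * dx w p) := rfl
    rw [h2, dt_add (smooth_EC.mul (smooth_dt h)) (smooth_ES.mul (smooth_dx h)).neg, dt_neg,
      dt_mul smooth_EC (smooth_dt h), dt_mul smooth_ES (smooth_dx h)]
  rw [h1, dt_EC, dt_ES]
  simp only [dt_dx_comm h p]
  ring

theorem dx_D1 {w : ℝ × ℝ → ℝ} (h : ContDiff ℝ ∞ w) (p : ℝ × ℝ) :
    dx (D1 w) p = -ES p * dt w p + EC p * dx (dt w) p - EC p * dx w p - ES p * dx (dx w) p := by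
  have h1 : dx (D1 w) = fun p => (dx EC p * dt w p + EC p * dx (dt w) p) +
      -(dx ES p * dx w p + ES p * dx (dx w) p) := by
    have h2 : D1 w = fun p => (EC p * dt w p) + -(ES p * dx w p) := rfl
    rw [h2, dx_add (smooth_EC.mul (smooth_dt h)) (smooth_ES.mul (smooth_dx h)).neg, dx_neg,
      dx_mul smooth_EC (smooth_dt h), dx_mul smooth_ES (smooth_dx h)]
  rw [h1, dx_EC, dx_ES]
  ring

theorem dt_D2 {w : ℝ × ℝ → ℝ} (h : ContDiff ℝ ∞ w) (p : ℝ × ℝ) :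
    dt (D2 w) p = -ES p * dt w p + ES p * dt (dt w) p - EC p * dx w p + EC p * dx (dt w) p := by
  have h1 : dt (D2 w) = fun p => (dt ES p * dt w p + ES p * dt (dt w) p) +
      (dt EC p * dx w p + EC p * dt (dx w) p) := by
    have h2 : D2 w = fun p => (ES p * dt w p) + (EC p * dx w p) := rfl
    rw [h2, dt_add (smooth_ES.mul (smooth_dt h)) (smooth_EC.mul (smooth_dx h)),
      dt_mul smooth_ES (smooth_dt h), dt_mul smooth_EC (smooth_dx h)]
  rw [h1, dt_EC, dt_ES]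
  simp only [dt_dx_comm h p]
  ring

theorem dx_D2 {w : ℝ × ℝ → ℝ} (h : ContDiff ℝ ∞ w) (p : ℝ × ℝ) :
    dx (D2 w) p = EC p * dt w p + ES p * dx (dt w) p - ES p * dx w p + EC p * dx (dx w) p := by
  have h1 : dx (D2 w) = fun p => (dx ES p * dt w p + ES p * dx (dt w) p) +
      (dx EC p * dx w p + EC p * dx (dx w) p) := by
    have h2 : D2 w = fun p => (ES p * dt w p) + (EC p * dx w p) := rfl
    rw [h2, dx_add (smooth_ES.mul (smooth_dt h)) (smooth_EC.mul (smooth_dx h)),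
      dx_mul smooth_ES (smooth_dt h), dx_mul smooth_EC (smooth_dx h)]
  rw [h1, dx_EC, dx_ES]
  ring

theorem nonscalar_core {w : ℝ × ℝ → ℝ} (h : ContDiff ℝ ∞ w) (p : ℝ × ℝ)
    (h1 : D1 (D1 w) p = D2 (D2 w) p) (h2 : D1 (D2 w) p = 0) :
    dt (dt w) p - dx (dx w) p - 2 * dt w p = 0 ∧ dx (dt w) p - dx w p = 0 := by
  have e1 : D1 (D1 w) p = EC p * dt (D1 w) p + -(ES p * dx (D1 w) p) := rfl
  have e2 : D2 (D2 w) p = ES p * dt (D2 w) p + EC p * dx (D2 w) p := rfl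
  have e3 : D1 (D2 w) p = EC p * dt (D2 w) p + -(ES p * dx (D2 w) p) := rfl
  rw [e1, e2, dt_D1 h, dx_D1 h, dt_D2 h, dx_D2 h] at h1
  rw [e3, dt_D2 h, dx_D2 h] at h2
  have hE : EC p ^ 2 + ES p ^ 2 = Real.exp (-p.1) ^ 2 := by
    unfold EC ES
    have := Real.sin_sq_add_cos_sq p.2
    linear_combination (Real.exp (-p.1) ^ 2) * this
  have hpos : (EC p ^ 2 + ES p ^ 2) ^ 2 ≠ 0 := by
    rw [hE]; positivity
  constructor
  · have : (EC p ^ 2 + ES p ^ 2) ^ 2 * (dt (dt w) p - dx (dx w) p - 2 * dt w p) = 0 := by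
      linear_combination (EC p ^ 2 - ES p ^ 2) * h1 + 4 * EC p * ES p * h2
    exact (mul_eq_zero.1 this).resolve_left hpos
  · have : (EC p ^ 2 + ES p ^ 2) ^ 2 * (dx (dt w) p - dx w p) = 0 := by
      linear_combination (-(EC p * ES p)) * h1 + (EC p ^ 2 - ES p ^ 2) * h2
    exact (mul_eq_zero.1 this).resolve_left hpos

theorem nonscalar_TT {u : ℝ × ℝ → ℝ} (h : ContDiff ℝ ∞ u) (p : ℝ × ℝ)
    (h1 : D1 (D1 (TT u)) p = D2 (D2 (TT u)) p) (h2 : D1 (D2 (TT u)) p = 0) :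
    dt (dt u) (p.1, 2 * p.2) - 4 * dx (dx u) (p.1, 2 * p.2) - u (p.1, 2 * p.2) = 0 ∧
      dx (dt u) (p.1, 2 * p.2) = 0 := by
  obtain ⟨h3, h4⟩ := nonscalar_core (smooth_TT h) p h1 h2
  have st := smooth_dt h
  have sx := smooth_dx h
  rw [dt_TT h, dx_TT h] at h3 h4
  rw [dt_TT (h.add st), dx_TT (sx.add sx), dt_add h st, dx_add sx sx] at h3
  rw [dx_TT (h.add st), dx_add h st] at h4
  have he := Real.exp_pos p.1
  simp only [TT] at h3 h4
  constructor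
  · have : Real.exp p.1 * (dt (dt u) (p.1, 2 * p.2) - 4 * dx (dx u) (p.1, 2 * p.2) -
        u (p.1, 2 * p.2)) = 0 := by linear_combination h3
    exact (mul_eq_zero.1 this).resolve_left he.ne'
  · have : Real.exp p.1 * (2 * dx (dt u) (p.1, 2 * p.2)) = 0 := by linear_combination h4
    have := (mul_eq_zero.1 this).resolve_left he.ne'
    linarith

/-- **From the strip to the plane.** -/
theorem exists_plane (u : ℝ × ℝ → ℝ) (hu : ContDiff ℝ ∞ u)
    (hper : ∀ t x, u (t, x + 2 * Real.pi) = u (t, x)) (hflat : ∀ k, PF k u)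
    (hns : ∀ p, dx (dt u) p = 0 → dt (dt u) p - 4 * dx (dx u) p - u p ≠ 0)
    (c1 c2 c3 t1 : ℝ) (hend : ∀ t, t1 ≤ t → ∀ x, u (t, x) =
      Real.exp (-t) * (c1 * Real.cos x + (c2 + c3 * Real.exp (-2 * t)) * Real.sin x)) :
    ∃ h : ℂ → ℝ, ContDiff ℝ ∞ h ∧
      (∀ z : ℂ, Real.exp t1 ≤ ‖z‖ →
        h z = (c1 * (z ^ 2).re + (c2 + c3 / ‖z‖ ^ 2) * (z ^ 2).im) / ‖z‖ ^ 2) ∧
      ∀ z : ℂ, z ≠ 0 → ¬ (fderiv ℝ (fderiv ℝ h) z 1 1 = fderiv ℝ (fderiv ℝ h) z Complex.I Complex.I ∧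
        fderiv ℝ (fderiv ℝ h) z 1 Complex.I = 0) := by
  have hc : Cl u := ⟨hu, hper, hflat⟩
  have hT : Cl (TT u) := hc.TT
  refine ⟨WW (TT u), contDiff_WW hT, ?_, ?_⟩
  · intro z hz
    have hz0 : z ≠ 0 := by
      rintro rfl
      rw [norm_zero] at hz
      exact absurd hz (not_le.2 (Real.exp_pos _))
    have hn : 0 < ‖z‖ := norm_pos_iff.2 hz0
    have ht : t1 ≤ Real.log ‖z‖ := by
      rw [← Real.log_exp t1]
      exact Real.log_le_log (Real.exp_pos _) hz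
    have h1 : z ^ 2 = Complex.exp (2 * (Real.log ‖z‖ : ℂ) + (2 * Complex.arg z : ℝ) * Complex.I) := by
      conv_lhs => rw [← Complex.exp_log hz0, ← Complex.exp_nat_mul]
      congr 1
      rw [Complex.log]
      push_cast
      ring
    have h2 : Complex.exp (2 * (Real.log ‖z‖ : ℂ)) = ((‖z‖ ^ 2 : ℝ) : ℂ) := by
      rw [← Complex.ofReal_ofNat, ← Complex.ofReal_mul, ← Complex.ofReal_exp]
      congr 1
      have : (2 : ℝ) * Real.log ‖z‖ = Real.log (‖z‖ ^ 2) := by rw [Real.log_pow]; norm_num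
      rw [this, Real.exp_log (by positivity)]
    have h3 : z ^ 2 = ((‖z‖ ^ 2 * Real.cos (2 * Complex.arg z) : ℝ) : ℂ) +
        ((‖z‖ ^ 2 * Real.sin (2 * Complex.arg z) : ℝ) : ℂ) * Complex.I := by
      rw [h1, Complex.exp_add, h2, Complex.exp_mul_I, ← Complex.ofReal_cos, ← Complex.ofReal_sin]
      push_cast
      ring
    have h4 : (z ^ 2).re = ‖z‖ ^ 2 * Real.cos (2 * Complex.arg z) := by
      rw [h3]; simp only [Complex.add_re, Complex.mul_re, Complex.ofReal_re, Complex.ofReal_im,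
        Complex.I_re, Complex.I_im]; ring
    have h5 : (z ^ 2).im = ‖z‖ ^ 2 * Real.sin (2 * Complex.arg z) := by
      rw [h3]; simp only [Complex.add_im, Complex.mul_im, Complex.ofReal_re, Complex.ofReal_im,
        Complex.I_re, Complex.I_im]; ring
    have h6 : WW (TT u) z = Real.exp (Real.log ‖z‖) * u (Real.log ‖z‖, 2 * Complex.arg z) := by
      rw [WW, if_neg hz0]; rfl
    have h7 : Real.exp (-Real.log ‖z‖) = ‖z‖⁻¹ := by rw [Real.exp_neg, Real.exp_log hn]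
    have h8 : Real.exp (-2 * Real.log ‖z‖) = (‖z‖ ^ 2)⁻¹ := by
      have : -2 * Real.log ‖z‖ = -(Real.log (‖z‖ ^ 2)) := by rw [Real.log_pow]; push_cast; ring
      rw [this, Real.exp_neg, Real.exp_log (by positivity)]
    rw [h6, hend _ ht, Real.exp_log hn, h7, h8, h4, h5]
    field_simp
  · intro z hz hcon
    obtain ⟨e1, e2, e3⟩ := fderiv2_WW hT z
    rw [e1, e2, e3] at hcon
    simp only [WW, if_neg hz] at hcon
    obtain ⟨h1, h2⟩ := nonscalar_TT hu _ hcon.1 hcon.2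
    exact hns _ h2 h1

/-- flatness in terms of the iterated derivatives -/
def IterFlat (u : ℝ × ℝ → ℝ) : Prop :=
  ∀ n N : ℕ, ∃ C : ℝ, ∀ t ≤ (0 : ℝ), ∀ x : ℝ,
    ‖iteratedFDeriv ℝ n u (t, x)‖ ≤ C * Real.exp (N * t)

theorem IterFlat.apply {u : ℝ × ℝ → ℝ} (hu : ContDiff ℝ ∞ u) (h : IterFlat u) (a : ℝ × ℝ) :
    IterFlat (fun p => fderiv ℝ u p a) := by
  intro n N
  obtain ⟨C, hC⟩ := h (n + 1) N
  refine ⟨‖a‖ * C, fun t ht x => ?_⟩
  have h1 : ContDiffAt ℝ ∞ (fderiv ℝ u) (t, x) := (hu.fderiv_right (by simp)).contDiffAt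
  have h2 := norm_iteratedFDeriv_clm_apply_const (c := a) (n := n) h1 (WithTop.coe_le_coe.2 le_top)
  rw [norm_iteratedFDeriv_fderiv] at h2
  calc _ ≤ ‖a‖ * ‖iteratedFDeriv ℝ (n + 1) u (t, x)‖ := h2
    _ ≤ ‖a‖ * (C * Real.exp (N * t)) := mul_le_mul_of_nonneg_left (hC t ht x) (norm_nonneg _)
    _ = _ := by ring

theorem IterFlat.flatAt {u : ℝ × ℝ → ℝ} (h : IterFlat u) : FlatAt u := by
  intro N
  obtain ⟨C, hC⟩ := h 0 N
  refine ⟨C, fun t ht x => ?_⟩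
  have := hC t ht x
  rwa [norm_iteratedFDeriv_zero] at this

theorem IterFlat.pf : ∀ {k : ℕ} {u : ℝ × ℝ → ℝ}, ContDiff ℝ ∞ u → IterFlat u → PF k u
  | 0, _, _, h => h.flatAt
  | (_ + 1), _, hu, h => ⟨h.flatAt, IterFlat.pf (smooth_dt hu) (h.apply hu (1, 0)),
      IterFlat.pf (smooth_dx hu) (h.apply hu (0, 1))⟩

end CarNeg
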