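import Pool.Agent.Work.MP_d5a045_gt.GeoC

set_option autoImplicit false

/-! # The Carathéodory conjecture: the reduction to a plane function (helper34) -/

namespace Pool.Agent.Work.Cara

open Filter Topology Metric Set
open scoped ContDiff NNReal

/-- the reduction -/
theorem geo (h g : ℂ → ℝ) (hh : ContDiff ℝ ∞ h) (hg : ContDiff ℝ ∞ g) (hout : Out h g)
    (hg0 : ¬ (fderiv ℝ (fderiv ℝ g) 0 1 1 =
      fderiv ℝ (fderiv ℝ g) 0 Complex.I Complex.I ∧ fderiv ℝ (fderiv ℝ g) 0 1 Complex.I = 0))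
    (hnd : ∀ z : ℂ, z ≠ 0 → ¬ (fderiv ℝ (fderiv ℝ h) z 1 1 =
      fderiv ℝ (fderiv ℝ h) z Complex.I Complex.I ∧ fderiv ℝ (fderiv ℝ h) z 1 Complex.I = 0)) :
    ¬ (∀ F : EuclideanSpace ℝ (Fin 3) → ℝ,
    (∀ n : ℕ, ContDiff ℝ n F) →
    IsCompact {x : EuclideanSpace ℝ (Fin 3) | F x = 0} →
    (∀ x : EuclideanSpace ℝ (Fin 3), F x = 0 → fderiv ℝ F x ≠ 0) →
    Nonempty (↥{x : EuclideanSpace ℝ (Fin 3) | F x = 0} ≃ₜ
      ↥(Metric.sphere (0 : EuclideanSpace ℝ (Fin 3)) 1)) →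
    ∃ p q : EuclideanSpace ℝ (Fin 3), F p = 0 ∧ F q = 0 ∧ p ≠ q ∧
      (∃ c : ℝ, ∀ u v : EuclideanSpace ℝ (Fin 3),
        fderiv ℝ F p u = 0 → fderiv ℝ F p v = 0 →
          fderiv ℝ (fderiv ℝ F) p u v = c * inner ℝ u v) ∧
      (∃ c : ℝ, ∀ u v : EuclideanSpace ℝ (Fin 3),
        fderiv ℝ F q u = 0 → fderiv ℝ F q v = 0 →
          fderiv ℝ (fderiv ℝ F) q u v = c * inner ℝ u v)) := by
  let b1 : ContDiffBump (0 : E3) := ⟨1 / 4, 1 / 2, by norm_num, by norm_num⟩
  let b2 : ContDiffBump (0 : E3) := ⟨2, 3, by norm_num, by norm_num⟩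
  set K : E3 → ℝ := fun y => b2 y * ((1 - b1 y) * K0 h g y) with hK
  have hKd : ContDiff ℝ ∞ K := by
    rw [contDiff_iff_contDiffAt]
    intro y
    by_cases hy : y = 0
    · have h1 : K =ᶠ[𝓝 y] fun _ => 0 := by
        rw [hy]
        filter_upwards [b1.eventuallyEq_one] with z hz
        simp only [hK]
        rw [hz]
        simp
      exact contDiffAt_const.congr_of_eventuallyEq h1
    · exact b2.contDiffAt.mul ((contDiffAt_const.sub b1.contDiffAt).mul
        (contDiffAt_K0 hh hg hout hy))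
  have hKc : HasCompactSupport K := b2.hasCompactSupport.mul_right
  have hKeq : ∀ y, 1 / 2 < ‖y‖ → ‖y‖ < 2 → K =ᶠ[𝓝 y] K0 h g := by
    intro y h1 h2
    filter_upwards [continuous_norm.continuousAt.eventually (Ioi_mem_nhds h1),
      continuous_norm.continuousAt.eventually (Iio_mem_nhds h2)] with z h3 h4
    have h5 : b1 z = 0 := b1.zero_of_le_dist (by
      rw [dist_zero_right]
      exact le_of_lt h3)
    have h6 : b2 z = 1 := b2.one_of_mem_closedBall (by
      rw [mem_closedBall_zero_iff]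
      exact le_of_lt h4)
    simp only [hK]
    rw [h5, h6]
    ring
  have hK2 : ∀ y, 1 / 2 < ‖y‖ → ‖y‖ < 2 →
      fderiv ℝ (fderiv ℝ K) y = fderiv ℝ (fderiv ℝ (K0 h g)) y := fun y h1 h2 =>
    ((hKeq y h1 h2).fderiv).fderiv_eq
  have hne : ∀ y : E3, 1 / 2 < ‖y‖ → y ≠ 0 := fun y hy h0 => by
    rw [h0, norm_zero] at hy
    norm_num at hy
  obtain ⟨F, N, hF1, hF2, hF3, hF4, hNinj, hF5⟩ := surf hKd hKc (fun y h1 h2 => by
    rw [hK2 y h1 h2]
    exact euler hh hg hout (hne y h1))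
  intro hall
  obtain ⟨p, q, hp, hq, hpq, hup, huq⟩ := hall F hF1 hF2 hF3 hF4
  have key : ∀ x, F x = 0 → (∃ c : ℝ, ∀ u v : E3, fderiv ℝ F x u = 0 → fderiv ℝ F x v = 0 →
      fderiv ℝ (fderiv ℝ F) x u v = c * inner ℝ u v) → N x = e 2 := by
    intro x hx hu
    obtain ⟨h1, h2⟩ := hF5 x hx
    have hmu := h2 hu
    set y := N x with hy
    have hlo : 1 / 2 < ‖y‖ := by rw [h1]; norm_num
    have hhi : ‖y‖ < 2 := by rw [h1]; norm_num
    rw [hK2 y hlo hhi] at hmu
    have hev : ∀ᶠ y' in 𝓝 y, ContDiffAt ℝ ∞ (K0 h g) y' := by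
      filter_upwards [isOpen_ne.mem_nhds (hne y hlo)] with y' hy'
      exact contDiffAt_K0 hh hg hout hy'
    have hE := euler hh hg hout (hne y hlo)
    have hsq := norm_sq_E3 y
    rw [h1] at hsq
    rcases lt_or_ge 0 (‖y‖ + y 2) with h3 | h3
    · set s : ℝ := (‖y‖ + y 2) / 2 with hs
      have hs0 : 0 < s := by positivity
      have hphi : phi 1 s (Zc y) = y := by
        rw [h1] at hs h3
        ext i
        fin_cases i
        · simp only [Fin.zero_eta, Fin.isValue, phi_0, Zc_re, h1, hs]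
          field_simp
        · simp only [Fin.mk_one, Fin.isValue, phi_1, Zc_im, h1, hs]
          field_simp
        · simp only [Fin.reduceFinMk, Fin.isValue, phi_2, Zc_re, Zc_im, h1, hs]
          field_simp
          nlinarith
      by_cases hz : Zc y = 0
      · have h4 := Zc_re y
        have h5 := Zc_im y
        rw [hz] at h4 h5
        have h6 : y 0 = 0 := by
          rcases mul_eq_zero.1 h4.symm with h | h
          · exact absurd h (inv_ne_zero h3.ne')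
          · exact h
        have h7 : y 1 = 0 := by
          rcases mul_eq_zero.1 h5.symm with h | h
          · exact absurd h (inv_ne_zero h3.ne')
          · exact h
        have h8 : y 2 = 1 := by
          rw [h6, h7] at hsq
          rw [h1] at h3
          nlinarith
        ext i
        fin_cases i <;> simp [e, h6, h7, h8]
      · exfalso
        refine hnd _ hz ?_
        rw [← hphi] at hev hE hmu
        exact umb (by norm_num) hs0 hev (Eventually.of_forall fun _ => hh.contDiffAt)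
          (Eventually.of_forall fun z' => K0_phi hout hs0 z') hE hmu
    · exfalso
      rw [h1] at h3
      have h4 : y 2 = -1 := by
        nlinarith [sq_nonneg (y 0), sq_nonneg (y 1)]
      have h5 : y 0 = 0 := by
        rw [h4] at hsq
        nlinarith [sq_nonneg (y 0), sq_nonneg (y 1)]
      have h6 : y 1 = 0 := by
        rw [h4] at hsq
        nlinarith [sq_nonneg (y 0), sq_nonneg (y 1)]
      have hphi : phi (-1) 1 0 = y := by
        ext i
        fin_cases i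
        · simp only [Fin.zero_eta, Fin.isValue, phi_0, h5]
          simp
        · simp only [Fin.mk_one, Fin.isValue, phi_1, h6]
          simp
        · simp only [Fin.reduceFinMk, Fin.isValue, phi_2, h4]
          simp
      rw [← hphi] at hev hE hmu
      have hopen : ∀ᶠ z' : ℂ in 𝓝 0, z'.re ^ 2 + z'.im ^ 2 < 1 := by
        have h7 : Continuous fun z : ℂ => z.re ^ 2 + z.im ^ 2 := by fun_prop
        exact h7.continuousAt.eventually (Iio_mem_nhds (by simp))
      exact hg0 (umb (by norm_num) one_pos hev (Eventually.of_forall fun z' => hg.contDiffAt)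
        (hopen.mono fun z' hz' => K0_phi' one_pos hz') hE hmu)
  exact hpq (hNinj ((key p hp hup).trans (key q hq huq).symm))

/-- second derivatives and scaling -/
theorem second_scale {h : ℂ → ℝ} (hh : ContDiff ℝ ∞ h) (a r : ℝ) (z u v : ℂ) :
    fderiv ℝ (fderiv ℝ (fun z : ℂ => a * h (r • z))) z u v =
      a * r ^ 2 * fderiv ℝ (fderiv ℝ h) (r • z) u v := by
  have h0 : ∀ z : ℂ, HasFDerivAt (fun z : ℂ => r • z) (r • ContinuousLinearMap.id ℝ ℂ) z :=
    fun z => (hasFDerivAt_id z).const_smul r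
  have h1 : fderiv ℝ (fun z : ℂ => a * h (r • z)) = fun z : ℂ => (a * r) • fderiv ℝ h (r • z) := by
    ext1 z
    have h2 : HasFDerivAt h (fderiv ℝ h (r • z)) (r • z) :=
      (hh.contDiffAt.differentiableAt (by simp)).hasFDerivAt
    have h3 : HasFDerivAt (fun z : ℂ => a * h (r • z))
        (a • (fderiv ℝ h (r • z)).comp (r • ContinuousLinearMap.id ℝ ℂ)) z :=
      (h2.comp z (h0 z)).const_mul a
    rw [h3.fderiv]
    ext u
    all_goals simp
    all_goals ring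
  have h2 : HasFDerivAt (fderiv ℝ h) (fderiv ℝ (fderiv ℝ h) (r • z)) (r • z) :=
    ((hh.fderiv_right (m := ∞) (by simp)).contDiffAt.differentiableAt (by simp)).hasFDerivAt
  have h3 : HasFDerivAt (fun z : ℂ => (a * r) • fderiv ℝ h (r • z))
      ((a * r) • (fderiv ℝ (fderiv ℝ h) (r • z)).comp (r • ContinuousLinearMap.id ℝ ℂ)) z :=
    (h2.comp z (h0 z)).const_smul (a * r)
  rw [h1, h3.fderiv]
  simp
  ring

/-- the reduction, any radius -/
theorem geo' (h g : ℂ → ℝ) (hh : ContDiff ℝ ∞ h) (hg : ContDiff ℝ ∞ g) (r0 : ℝ) (hr0 : 0 < r0)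
    (hout : ∀ z : ℂ, r0 ^ 2 ≤ z.re ^ 2 + z.im ^ 2 →
      h z = (z.re ^ 2 + z.im ^ 2) * g ((z.re ^ 2 + z.im ^ 2)⁻¹ • z))
    (hg0 : ¬ (fderiv ℝ (fderiv ℝ g) 0 1 1 =
      fderiv ℝ (fderiv ℝ g) 0 Complex.I Complex.I ∧ fderiv ℝ (fderiv ℝ g) 0 1 Complex.I = 0))
    (hnd : ∀ z : ℂ, z ≠ 0 → ¬ (fderiv ℝ (fderiv ℝ h) z 1 1 =
      fderiv ℝ (fderiv ℝ h) z Complex.I Complex.I ∧ fderiv ℝ (fderiv ℝ h) z 1 Complex.I = 0)) :
    ¬ (∀ F : EuclideanSpace ℝ (Fin 3) → ℝ,
    (∀ n : ℕ, ContDiff ℝ n F) →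
    IsCompact {x : EuclideanSpace ℝ (Fin 3) | F x = 0} →
    (∀ x : EuclideanSpace ℝ (Fin 3), F x = 0 → fderiv ℝ F x ≠ 0) →
    Nonempty (↥{x : EuclideanSpace ℝ (Fin 3) | F x = 0} ≃ₜ
      ↥(Metric.sphere (0 : EuclideanSpace ℝ (Fin 3)) 1)) →
    ∃ p q : EuclideanSpace ℝ (Fin 3), F p = 0 ∧ F q = 0 ∧ p ≠ q ∧
      (∃ c : ℝ, ∀ u v : EuclideanSpace ℝ (Fin 3),
        fderiv ℝ F p u = 0 → fderiv ℝ F p v = 0 →
          fderiv ℝ (fderiv ℝ F) p u v = c * inner ℝ u v) ∧
      (∃ c : ℝ, ∀ u v : EuclideanSpace ℝ (Fin 3),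
        fderiv ℝ F q u = 0 → fderiv ℝ F q v = 0 →
          fderiv ℝ (fderiv ℝ F) q u v = c * inner ℝ u v)) := by
  refine geo (fun z => 1 * h (r0 • z)) (fun z => r0 ^ 2 * g (r0⁻¹ • z)) ?_ ?_ ?_ ?_ ?_
  · exact contDiff_const.mul (hh.comp (contDiff_const_smul r0))
  · exact contDiff_const.mul (hg.comp (contDiff_const_smul r0⁻¹))
  · intro z hz
    have h1 : (r0 • z).re ^ 2 + (r0 • z).im ^ 2 = r0 ^ 2 * (z.re ^ 2 + z.im ^ 2) := by
      simp
      ring
    have h2 : (r0 ^ 2 * (z.re ^ 2 + z.im ^ 2))⁻¹ • (r0 • z) = r0⁻¹ • ((z.re ^ 2 + z.im ^ 2)⁻¹ • z) := by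
      rw [smul_smul, smul_smul]
      congr 1
      field_simp
    show 1 * h (r0 • z) = _
    rw [hout (r0 • z) (by rw [h1]; nlinarith [sq_nonneg r0]), h1, h2]
    ring
  · rw [second_scale hg, second_scale hg, second_scale hg, smul_zero]
    rintro ⟨h1, h2⟩
    have h3 : r0 ^ 2 * r0⁻¹ ^ 2 = 1 := by
      rw [← mul_pow, mul_inv_cancel₀ hr0.ne', one_pow]
    rw [h3, one_mul, one_mul] at h1
    rw [h3, one_mul] at h2
    exact hg0 ⟨h1, h2⟩
  · intro z hz
    rw [second_scale hh, second_scale hh, second_scale hh]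
    rintro ⟨h1, h2⟩
    have h3 : (1 : ℝ) * r0 ^ 2 ≠ 0 := by positivity
    refine hnd (r0 • z) (smul_ne_zero hr0.ne' hz) ⟨mul_left_cancel₀ h3 h1, ?_⟩
    exact (mul_eq_zero.1 h2).resolve_left h3

end Pool.Agent.Work.Cara
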