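import Mathlib

set_option autoImplicit false

/-! # The Carathéodory conjecture: from a support function to a hypersurface (helper34)

`K : E → ℝ` is smooth with compact support and its Hessian at `y` kills `y` for
`1/2 < ‖y‖ < 2`. Then for small `ε` the map `Ψ = id + ε ∇K` is a diffeomorphism and
`F = (‖Ψ⁻¹ x‖² - 1) / 2` has the Hessian `(1 + ε D²K)⁻¹`. -/

namespace Pool.Agent.Work.Cara

open Filter Topology Metric Set
open scoped ContDiff NNReal

abbrev E3 := EuclideanSpace ℝ (Fin 3)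

/-- basis vectors -/
noncomputable def e (i : Fin 3) : E3 := EuclideanSpace.single i (1 : ℝ)

/-- the gradient map on functionals -/
noncomputable def T : (E3 →L[ℝ] ℝ) →L[ℝ] E3 :=
  ∑ i, (ContinuousLinearMap.apply ℝ ℝ (e i)).smulRight (e i)

theorem T_apply (f : E3 →L[ℝ] ℝ) : T f = ∑ i, f (e i) • e i := by
  simp [T]

theorem inner_T (f : E3 →L[ℝ] ℝ) (v : E3) : inner ℝ (T f) v = f v := by
  rw [T_apply, sum_inner]
  have hv : v = ∑ i, v i • e i := by
    ext j
    fin_cases j <;> simp [e, Fin.sum_univ_three]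
  conv_rhs => rw [hv, map_sum]
  refine Finset.sum_congr rfl fun i _ => ?_
  rw [inner_smul_left, map_smul, smul_eq_mul, e, EuclideanSpace.inner_single_left]
  simp
  ring

variable {K : E3 → ℝ}

/-- the gradient field -/
noncomputable def grad (K : E3 → ℝ) (y : E3) : E3 := T (fderiv ℝ K y)

theorem contDiff_grad (hK : ContDiff ℝ ∞ K) : ContDiff ℝ ∞ (grad K) :=
  T.contDiff.comp (hK.fderiv_right (m := ∞) (by simp))

theorem hasFDerivAt_grad (hK : ContDiff ℝ ∞ K) (y : E3) :
    HasFDerivAt (grad K) (T.comp (fderiv ℝ (fderiv ℝ K) y)) y := by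
  have h1 : DifferentiableAt ℝ (fderiv ℝ K) y :=
    (hK.fderiv_right (m := ∞) (by simp)).contDiffAt.differentiableAt (by simp)
  exact T.hasFDerivAt.comp y h1.hasFDerivAt

/-- The main lemma. -/
theorem surf (hK : ContDiff ℝ ∞ K) (hc : HasCompactSupport K)
    (hE : ∀ y, 1 / 2 < ‖y‖ → ‖y‖ < 2 → fderiv ℝ (fderiv ℝ K) y y = 0) :
    ∃ (F : E3 → ℝ) (N : E3 → E3), (∀ n : ℕ, ContDiff ℝ n F) ∧
      IsCompact {x : E3 | F x = 0} ∧
      (∀ x : E3, F x = 0 → fderiv ℝ F x ≠ 0) ∧
      Nonempty (↥{x : E3 | F x = 0} ≃ₜ ↥(Metric.sphere (0 : E3) 1)) ∧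
      Function.Injective N ∧
      (∀ x, F x = 0 → ‖N x‖ = 1 ∧ ((∃ c : ℝ, ∀ u v : E3, fderiv ℝ F x u = 0 → fderiv ℝ F x v = 0 →
          fderiv ℝ (fderiv ℝ F) x u v = c * inner ℝ u v) →
        ∃ μ : ℝ, ∀ u v : E3, inner ℝ (N x) u = 0 → inner ℝ (N x) v = 0 →
          fderiv ℝ (fderiv ℝ K) (N x) u v = μ * inner ℝ u v)) := by
  -- the bound of the derivative of the gradient
  set D : E3 → (E3 →L[ℝ] E3) := fun y => T.comp (fderiv ℝ (fderiv ℝ K) y) with hD
  have hDcont : Continuous D := by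
    have h1 : Continuous (fderiv ℝ (fderiv ℝ K)) :=
      ((hK.fderiv_right (m := ∞) (by simp)).fderiv_right (m := ∞) (by simp)).continuous
    exact (ContinuousLinearMap.compL ℝ E3 (E3 →L[ℝ] ℝ) E3 T).continuous.comp h1
  have hDsupp : HasCompactSupport D := by
    have h1 : HasCompactSupport (fderiv ℝ (fderiv ℝ K)) := (hc.fderiv ℝ).fderiv ℝ
    refine h1.comp_left (g := fun L : E3 →L[ℝ] (E3 →L[ℝ] ℝ) => T.comp L) ?_
    simp
  obtain ⟨C, hC⟩ := hDsupp.exists_bound_of_continuous hDcont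
  have hC0 : 0 ≤ C := (norm_nonneg _).trans (hC 0)
  set ε : ℝ := 1 / (2 * (C + 1)) with hε
  have hε0 : 0 < ε := by positivity
  have hεC : ε * C ≤ 1 / 2 := by
    rw [hε, div_mul_eq_mul_div, div_le_div_iff₀ (by positivity) (by norm_num)]
    nlinarith
  -- the map
  set Ψ : E3 → E3 := fun y => y + ε • grad K y with hΨ
  have hΨd : ContDiff ℝ ∞ Ψ := contDiff_id.add ((contDiff_grad hK).const_smul ε)
  have hΨ' : ∀ y, HasFDerivAt Ψ (ContinuousLinearMap.id ℝ E3 + ε • D y) y := fun y =>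
    (hasFDerivAt_id y).add ((hasFDerivAt_grad hK y).const_smul ε)
  have happ : ApproximatesLinearOn Ψ ((ContinuousLinearEquiv.refl ℝ E3 : E3 ≃L[ℝ] E3) :
      E3 →L[ℝ] E3) univ (1 / 2 : ℝ≥0) := by
    have hlip : LipschitzWith (1 / 2 : ℝ≥0) (fun y => ε • grad K y) := by
      refine lipschitzWith_of_nnnorm_fderiv_le
        (((contDiff_grad hK).const_smul ε).differentiable (by simp)) fun y => ?_
      have h1 : fderiv ℝ (fun y => ε • grad K y) y = ε • D y :=
        ((hasFDerivAt_grad hK y).const_smul ε).fderiv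
      rw [h1]
      have h2 : ‖ε • D y‖ ≤ 1 / 2 := by
        rw [norm_smul, Real.norm_eq_abs, abs_of_pos hε0]
        exact (mul_le_mul_of_nonneg_left (hC y) hε0.le).trans hεC
      exact_mod_cast h2
    intro x _ y _
    have h1 := hlip.dist_le_mul x y
    rw [dist_eq_norm, dist_eq_norm] at h1
    have h2 : Ψ x - Ψ y - ((ContinuousLinearEquiv.refl ℝ E3 : E3 ≃L[ℝ] E3) : E3 →L[ℝ] E3) (x - y) =
        ε • grad K x - ε • grad K y := by
      simp only [hΨ, ContinuousLinearEquiv.coe_refl, ContinuousLinearMap.coe_id', id_eq]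
      abel
    rw [h2]
    exact h1
  have hN : Subsingleton E3 ∨ (1 / 2 : ℝ≥0) <
      ‖((ContinuousLinearEquiv.refl ℝ E3).symm : E3 →L[ℝ] E3)‖₊⁻¹ := by
    right
    have h1 : ‖((ContinuousLinearEquiv.refl ℝ E3).symm : E3 →L[ℝ] E3)‖₊ = 1 := by
      have : ((ContinuousLinearEquiv.refl ℝ E3).symm : E3 →L[ℝ] E3) =
        ContinuousLinearMap.id ℝ E3 := by ext; rfl
      rw [this]
      ext
      simp
    rw [h1]
    norm_num
  set H : E3 ≃ₜ E3 := happ.toHomeomorph Ψ hN with hH
  have hHΨ : ∀ y, H y = Ψ y := fun y => rfl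
  -- the derivative is invertible
  have hinv : ∀ y, ∃ L : E3 ≃L[ℝ] E3, (L : E3 →L[ℝ] E3) = ContinuousLinearMap.id ℝ E3 + ε • D y := by
    intro y
    have h1 : ‖-(ε • D y)‖ < 1 := by
      rw [norm_neg, norm_smul, Real.norm_eq_abs, abs_of_pos hε0]
      have := (mul_le_mul_of_nonneg_left (hC y) hε0.le).trans hεC
      linarith
    refine ⟨ContinuousLinearEquiv.unitsEquiv ℝ E3 (Units.oneSub (-(ε • D y)) h1), ?_⟩
    ext v
    simp
  choose L hL using hinv
  have hHd : ContDiff ℝ ∞ (H.symm : E3 → E3) := by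
    refine H.contDiff_symm (f₀' := L) (fun a => ?_) hΨd
    rw [hL]
    exact hΨ' a
  set N : E3 → E3 := fun x => H.symm x with hNdef
  have hNH : ∀ y, N (Ψ y) = y := fun y => H.symm_apply_apply y
  have hHN : ∀ x, Ψ (N x) = x := fun x => H.apply_symm_apply x
  -- derivative of N
  have hN' : ∀ x, HasFDerivAt N ((L (N x)).symm : E3 →L[ℝ] E3) x := by
    intro x
    refine HasFDerivAt.of_local_left_inverse (f := Ψ) (f' := L (N x)) (g := N) (a := x) ?_ ?_ ?_
    · exact H.symm.continuous.continuousAt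
    · rw [hL]
      exact hΨ' _
    · exact Eventually.of_forall hHN
  -- the key identity
  have hsymm : ∀ y u v, fderiv ℝ (fderiv ℝ K) y u v = fderiv ℝ (fderiv ℝ K) y v u := fun y u v =>
    (hK.contDiffAt (x := y)).isSymmSndFDerivAt (by
      simp only [minSmoothness_of_isRCLikeNormedField]
      exact WithTop.coe_le_coe.2 le_top) u v
  have hDin : ∀ y u v, inner ℝ (D y u) v = fderiv ℝ (fderiv ℝ K) y u v := fun y u v => by
    rw [hD]
    exact inner_T _ _
  have hLs : ∀ y u, (L y).symm u + ε • D y ((L y).symm u) = u := by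
    intro y u
    have h1 : (L y : E3 →L[ℝ] E3) ((L y).symm u) = u := (L y).apply_symm_apply u
    rw [hL] at h1
    simpa using h1
  have hkey : ∀ y, 1 / 2 < ‖y‖ → ‖y‖ < 2 → ∀ u, inner ℝ y ((L y).symm u) = inner ℝ y u := by
    intro y h1 h2 u
    conv_rhs => rw [← hLs y u]
    rw [inner_add_right, inner_smul_right, real_inner_comm (D y ((L y).symm u)) y, hDin, hsymm,
      hE y h1 h2]
    simp
  set F : E3 → ℝ := fun x => (‖N x‖ ^ 2 - 1) / 2 with hF
  have hFd : ∀ n : ℕ, ContDiff ℝ n F := by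
    intro n
    have h1 : ContDiff ℝ n N := hHd.of_le (by exact_mod_cast le_top)
    exact ((h1.norm_sq ℝ).sub contDiff_const).div_const 2
  have hF0 : ∀ x, F x = 0 ↔ ‖N x‖ = 1 := by
    intro x
    simp only [hF]
    constructor
    · intro h
      have h1 : ‖N x‖ ^ 2 = 1 := by linarith
      nlinarith [norm_nonneg (N x)]
    · intro h
      rw [h]
      norm_num
  have hF' : ∀ x u, fderiv ℝ F x u = inner ℝ (N x) ((L (N x)).symm u) := by
    intro x u
    have h1 := ((hN' x).norm_sq.sub_const 1).mul_const (1 / 2 : ℝ)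
    have h2 : F = fun x => (‖N x‖ ^ 2 - 1) * (1 / 2) := by
      ext x
      simp only [hF]
      ring
    rw [h2, h1.fderiv]
    simp
  have hopen : IsOpen {x : E3 | 1 / 2 < ‖N x‖ ∧ ‖N x‖ < 2} :=
    (isOpen_lt continuous_const H.symm.continuous.norm).inter
      (isOpen_lt H.symm.continuous.norm continuous_const)
  have hF1 : ∀ x, 1 / 2 < ‖N x‖ → ‖N x‖ < 2 → fderiv ℝ F x = innerSL ℝ (N x) := by
    intro x h1 h2
    ext u
    rw [hF', hkey _ h1 h2]
    rfl
  have hF2 : ∀ x, F x = 0 → ∀ u v, fderiv ℝ (fderiv ℝ F) x u v =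
      inner ℝ ((L (N x)).symm u) v := by
    intro x hx u v
    have h1 := (hF0 x).1 hx
    have h2 : fderiv ℝ F =ᶠ[𝓝 x] fun x => innerSL ℝ (N x) := by
      filter_upwards [hopen.mem_nhds (by
        show 1 / 2 < ‖N x‖ ∧ ‖N x‖ < 2
        rw [h1]
        norm_num)] with z hz
      exact hF1 z hz.1 hz.2
    have h3 : HasFDerivAt (fun x => innerSL ℝ (N x))
        ((innerSL ℝ : E3 →L[ℝ] E3 →L[ℝ] ℝ).comp ((L (N x)).symm : E3 →L[ℝ] E3)) x :=
      (innerSL ℝ : E3 →L[ℝ] E3 →L[ℝ] ℝ).hasFDerivAt.comp x (hN' x)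
    rw [h2.fderiv_eq, h3.fderiv]
    rfl
  refine ⟨F, N, hFd, ?_, ?_, ?_, H.symm.injective, ?_⟩
  · have h1 : {x : E3 | F x = 0} = H '' sphere 0 1 := by
      ext x
      simp only [mem_ofPred_eq, hF0, mem_image, mem_sphere_zero_iff_norm]
      constructor
      · intro h
        exact ⟨N x, h, hHN x⟩
      · rintro ⟨y, hy, rfl⟩
        rw [hHΨ, hNH]
        exact hy
    rw [h1]
    exact (isCompact_sphere 0 1).image H.continuous
  · intro x hx h0
    have h1 := (hF0 x).1 hx
    rw [hF1 x (by rw [h1]; norm_num) (by rw [h1]; norm_num)] at h0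
    have h2 : innerSL ℝ (N x) (N x) = 0 := by rw [h0]; rfl
    rw [innerSL_apply_apply, real_inner_self_eq_norm_sq, h1] at h2
    norm_num at h2
  · refine ⟨H.symm.subtype fun x => ?_⟩
    rw [mem_sphere_zero_iff_norm]
    exact hF0 x
  · intro x hx
    have h1 := (hF0 x).1 hx
    refine ⟨h1, ?_⟩
    rintro ⟨c, hc'⟩
    set y := N x with hy
    have hlo : 1 / 2 < ‖y‖ := by rw [h1]; norm_num
    have hhi : ‖y‖ < 2 := by rw [h1]; norm_num
    have hker : ∀ u, inner ℝ y u = 0 → fderiv ℝ F x u = 0 := by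
      intro u hu
      rw [hF', ← hy, hkey _ hlo hhi, hu]
    have hcu : ∀ u, inner ℝ y u = 0 → (L y).symm u = c • u := by
      intro u hu
      have h3 : inner ℝ y ((L y).symm u - c • u) = 0 := by
        rw [inner_sub_right, inner_smul_right, hkey _ hlo hhi, hu]
        ring
      have h4 := hc' u ((L y).symm u - c • u) (hker u hu) (hker _ h3)
      rw [hF2 x hx] at h4
      have h5 : inner ℝ ((L y).symm u - c • u) ((L y).symm u - c • u) = (0 : ℝ) := by
        rw [inner_sub_left, inner_smul_left, h4]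
        simp
      exact sub_eq_zero.1 (inner_self_eq_zero.1 h5)
    by_cases hc0 : c = 0
    · refine ⟨0, fun u v hu hv => ?_⟩
      have h3 := hcu u hu
      rw [hc0, zero_smul] at h3
      have h4 : u = 0 := by
        have := (L y).symm.map_eq_zero_iff.1 h3
        exact this
      rw [h4]
      simp
    · refine ⟨(1 / c - 1) / ε, fun u v hu hv => ?_⟩
      have h3 := hLs y u
      rw [hcu u hu] at h3
      have h4 : D y u = ((1 / c - 1) / ε) • u := by
        rw [map_smul, smul_smul] at h3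
        have h5 : (ε * c) • D y u = (1 - c) • u := by
          rw [sub_smul, one_smul, eq_sub_iff_add_eq, add_comm]
          exact h3
        have h6 : D y u = (ε * c)⁻¹ • ((ε * c) • D y u) := by
          rw [smul_smul, inv_mul_cancel₀ (mul_ne_zero hε0.ne' hc0), one_smul]
        rw [h6, h5, smul_smul]
        congr 1
        field_simp
      rw [← hDin, h4, inner_smul_left]
      simp

end Pool.Agent.Work.Cara
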