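import Pool.Agent.Work.MP_d5a045_gt.GeoA

set_option autoImplicit false

/-! # The Carathéodory conjecture: stereographic coordinates for the support function (helper34) -/

namespace Pool.Agent.Work.Cara

open Filter Topology Metric Set
open scoped ContDiff NNReal

/-- stereographic parametrisation of the cone (`σ = ± 1`) -/
noncomputable def phi (σ s : ℝ) (z : ℂ) : E3 :=
  (2 * s * z.re) • e 0 + (2 * s * z.im) • e 1 + (s * σ * (1 - z.re ^ 2 - z.im ^ 2)) • e 2

/-- its derivative -/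
noncomputable def P (σ s : ℝ) (z : ℂ) : ℂ →L[ℝ] E3 :=
  (2 * s) • (Complex.reCLM.smulRight (e 0)) + (2 * s) • (Complex.imCLM.smulRight (e 1)) -
    (2 * s * σ) • ((z.re • Complex.reCLM + z.im • Complex.imCLM).smulRight (e 2))

theorem P_apply (σ s : ℝ) (z u : ℂ) : P σ s z u = (2 * s * u.re) • e 0 + (2 * s * u.im) • e 1 -
    (2 * s * σ * (z.re * u.re + z.im * u.im)) • e 2 := by
  simp [P, smul_smul]

theorem hasFDerivAt_phi (σ s : ℝ) (z : ℂ) : HasFDerivAt (phi σ s) (P σ s z) z := by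
  have h1 : HasFDerivAt (fun z : ℂ => z.re) Complex.reCLM z := Complex.reCLM.hasFDerivAt
  have h2 : HasFDerivAt (fun z : ℂ => z.im) Complex.imCLM z := Complex.imCLM.hasFDerivAt
  have h3 := (((h1.const_mul (2 * s)).smul_const (e 0)).add
    ((h2.const_mul (2 * s)).smul_const (e 1))).add
    ((((h1.pow 2).const_sub 1).sub (h2.pow 2)).const_mul (s * σ) |>.smul_const (e 2))
  refine h3.congr_fderiv ?_
  ext u i
  fin_cases i <;> simp [P, e] <;> ring

theorem hasFDerivAt_P (σ s : ℝ) (z u : ℂ) : HasFDerivAt (fun z' => P σ s z' u)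
    (-((2 * s * σ) • ((u.re • Complex.reCLM + u.im • Complex.imCLM).smulRight (e 2)))) z := by
  have h1 : HasFDerivAt (fun z : ℂ => z.re) Complex.reCLM z := Complex.reCLM.hasFDerivAt
  have h2 : HasFDerivAt (fun z : ℂ => z.im) Complex.imCLM z := Complex.imCLM.hasFDerivAt
  have h3 := (((h1.mul_const u.re).add (h2.mul_const u.im)).const_mul (2 * s * σ)
    |>.smul_const (e 2)).const_sub ((2 * s * u.re) • e 0 + (2 * s * u.im) • e 1)
  have h4 : (fun z' => P σ s z' u) = fun z' : ℂ => (2 * s * u.re) • e 0 + (2 * s * u.im) • e 1 -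
      (2 * s * σ * (z'.re * u.re + z'.im * u.im)) • e 2 := by
    ext1 z'
    exact P_apply σ s z' u
  rw [h4]
  refine h3.congr_fderiv ?_
  ext v i
  fin_cases i <;> simp [e] <;> ring

/-- second derivatives in the parametrisation -/
theorem second_deriv {K : E3 → ℝ} {g : ℂ → ℝ} {σ s : ℝ} {z : ℂ}
    (hK : ∀ᶠ y in 𝓝 (phi σ s z), ContDiffAt ℝ ∞ K y)
    (hg' : ∀ᶠ z' in 𝓝 z, ContDiffAt ℝ ∞ g z') (hKg : ∀ᶠ z' in 𝓝 z, K (phi σ s z') = 2 * s * g z') (u v : ℂ) :
    fderiv ℝ (fderiv ℝ K) (phi σ s z) (P σ s z v) (P σ s z u) -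
      2 * s * σ * (u.re * v.re + u.im * v.im) * fderiv ℝ K (phi σ s z) (e 2) =
      2 * s * fderiv ℝ (fderiv ℝ g) z v u := by
  have hcont : ContinuousAt (phi σ s) z := (hasFDerivAt_phi σ s z).continuousAt
  have hg : ContDiffAt ℝ ∞ g z := hg'.self_of_nhds
  -- first derivatives
  have h1 : ∀ᶠ z' in 𝓝 z, fderiv ℝ K (phi σ s z') (P σ s z' u) = 2 * s * fderiv ℝ g z' u := by
    filter_upwards [hKg.eventually_nhds, hcont.eventually hK, hg'] with z' h2 h3 h4
    have h5 : HasFDerivAt (fun z' => K (phi σ s z'))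
        ((fderiv ℝ K (phi σ s z')).comp (P σ s z')) z' :=
      (h3.differentiableAt (by simp)).hasFDerivAt.comp z' (hasFDerivAt_phi σ s z')
    have h6 : HasFDerivAt (fun z' => 2 * s * g z') ((2 * s) • fderiv ℝ g z') z' :=
      (h4.differentiableAt (by simp)).hasFDerivAt.const_mul (2 * s)
    have h7 := h5.unique (h6.congr_of_eventuallyEq h2)
    have h8 := congrArg (fun L : ℂ →L[ℝ] ℝ => L u) h7
    simpa using h8
  have h2 : HasFDerivAt (fun z' => fderiv ℝ K (phi σ s z')) ((fderiv ℝ (fderiv ℝ K) (phi σ s z)).comp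
      (P σ s z)) z := by
    have h3 : DifferentiableAt ℝ (fderiv ℝ K) (phi σ s z) :=
      ((hK.self_of_nhds).fderiv_right (m := ∞) (by simp)).differentiableAt (by simp)
    exact h3.hasFDerivAt.comp z (hasFDerivAt_phi σ s z)
  have h3 := h2.clm_apply (hasFDerivAt_P σ s z u)
  have h4 : HasFDerivAt (fun z' => 2 * s * fderiv ℝ g z' u)
      ((2 * s) • ((fderiv ℝ (fderiv ℝ g) z).flip u)) z := by
    have h5 : DifferentiableAt ℝ (fderiv ℝ g) z :=
      (hg.fderiv_right (m := ∞) (by simp)).differentiableAt (by simp)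
    have h6 := (h5.hasFDerivAt.clm_apply (hasFDerivAt_const u z)).const_mul (2 * s)
    refine h6.congr_fderiv ?_
    ext v
    simp
  have h5 := h3.unique (h4.congr_of_eventuallyEq h1)
  have h6 := congrArg (fun L : ℂ →L[ℝ] ℝ => L v) h5
  simp at h6
  rw [← h6]
  ring

theorem inner_E3 (x y : E3) : inner ℝ x y = x 0 * y 0 + x 1 * y 1 + x 2 * y 2 := by
  rw [PiLp.inner_apply, Fin.sum_univ_three]
  simp
  ring

@[simp] theorem phi_0 (σ s : ℝ) (z : ℂ) : phi σ s z 0 = 2 * s * z.re := by simp [phi, e]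
@[simp] theorem phi_1 (σ s : ℝ) (z : ℂ) : phi σ s z 1 = 2 * s * z.im := by simp [phi, e]
@[simp] theorem phi_2 (σ s : ℝ) (z : ℂ) : phi σ s z 2 = s * σ * (1 - z.re ^ 2 - z.im ^ 2) := by
  simp [phi, e]

@[simp] theorem P_0 (σ s : ℝ) (z u : ℂ) : P σ s z u 0 = 2 * s * u.re := by simp [P_apply, e]
@[simp] theorem P_1 (σ s : ℝ) (z u : ℂ) : P σ s z u 1 = 2 * s * u.im := by simp [P_apply, e]
@[simp] theorem P_2 (σ s : ℝ) (z u : ℂ) :
    P σ s z u 2 = -(2 * s * σ * (z.re * u.re + z.im * u.im)) := by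
  simp [P_apply, e]

/-- an umbilic in the stereographic coordinate -/
theorem umb {K : E3 → ℝ} {g : ℂ → ℝ} {σ s : ℝ} {z : ℂ} (hσ : σ ^ 2 = 1) (hs : 0 < s)
    (hK : ∀ᶠ y in 𝓝 (phi σ s z), ContDiffAt ℝ ∞ K y)
    (hg : ∀ᶠ z' in 𝓝 z, ContDiffAt ℝ ∞ g z')
    (hKg : ∀ᶠ z' in 𝓝 z, K (phi σ s z') = 2 * s * g z')
    (hE : fderiv ℝ (fderiv ℝ K) (phi σ s z) (phi σ s z) = 0)
    (hu : ∃ μ : ℝ, ∀ u v : E3, inner ℝ (phi σ s z) u = 0 → inner ℝ (phi σ s z) v = 0 →
      fderiv ℝ (fderiv ℝ K) (phi σ s z) u v = μ * inner ℝ u v) :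
    fderiv ℝ (fderiv ℝ g) z 1 1 = fderiv ℝ (fderiv ℝ g) z Complex.I Complex.I ∧
      fderiv ℝ (fderiv ℝ g) z 1 Complex.I = 0 := by
  obtain ⟨μ, hμ⟩ := hu
  have h11 := second_deriv hK hg hKg 1 1
  have hII := second_deriv hK hg hKg Complex.I Complex.I
  have h1I := second_deriv hK hg hKg Complex.I 1
  set y := phi σ s z with hy
  set B := fderiv ℝ (fderiv ℝ K) y with hB
  have hsymm : ∀ u v, B u v = B v u := fun u v =>
    (hK.self_of_nhds).isSymmSndFDerivAt (by
      simp only [minSmoothness_of_isRCLikeNormedField]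
      exact WithTop.coe_le_coe.2 le_top) u v
  have hBy : ∀ v, B y v = 0 := fun v => by rw [hE]; rfl
  have hBy' : ∀ v, B v y = 0 := fun v => by rw [hsymm, hBy]
  set m : ℝ := 1 + z.re ^ 2 + z.im ^ 2 with hm
  have hm0 : 0 < m := by positivity
  set ea : E3 := P σ s z 1 - (2 * z.re / m) • y with hea
  set eb : E3 := P σ s z Complex.I - (2 * z.im / m) • y with heb
  set a := z.re with ha
  set b := z.im with hb
  have i1 : inner ℝ y (P σ s z 1) = 2 * s ^ 2 * a * m := by
    rw [inner_E3]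
    simp only [hy, phi_0, phi_1, phi_2, P_0, P_1, P_2, Complex.one_re, Complex.one_im, hm]
    linear_combination (-2 * s ^ 2 * a * (1 - a ^ 2 - b ^ 2)) * hσ
  have i2 : inner ℝ y (P σ s z Complex.I) = 2 * s ^ 2 * b * m := by
    rw [inner_E3]
    simp only [hy, phi_0, phi_1, phi_2, P_0, P_1, P_2, Complex.I_re, Complex.I_im, hm]
    linear_combination (-2 * s ^ 2 * b * (1 - a ^ 2 - b ^ 2)) * hσ
  have i3 : inner ℝ y y = s ^ 2 * m ^ 2 := by
    rw [inner_E3]
    simp only [hy, phi_0, phi_1, phi_2, hm]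
    linear_combination (s ^ 2 * (1 - a ^ 2 - b ^ 2) ^ 2) * hσ
  have i4 : inner ℝ (P σ s z 1) (P σ s z 1) = 4 * s ^ 2 * (1 + a ^ 2) := by
    rw [inner_E3]
    simp only [P_0, P_1, P_2, Complex.one_re, Complex.one_im]
    linear_combination (4 * s ^ 2 * a ^ 2) * hσ
  have i5 : inner ℝ (P σ s z Complex.I) (P σ s z Complex.I) = 4 * s ^ 2 * (1 + b ^ 2) := by
    rw [inner_E3]
    simp only [P_0, P_1, P_2, Complex.I_re, Complex.I_im]
    linear_combination (4 * s ^ 2 * b ^ 2) * hσ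
  have i6 : inner ℝ (P σ s z 1) (P σ s z Complex.I) = 4 * s ^ 2 * (a * b) := by
    rw [inner_E3]
    simp only [P_0, P_1, P_2, Complex.I_re, Complex.I_im, Complex.one_re, Complex.one_im]
    linear_combination (4 * s ^ 2 * (a * b)) * hσ
  have hya : inner ℝ y ea = 0 := by
    rw [hea, inner_sub_right, inner_smul_right, i1, i3]
    field_simp
    ring
  have hyb : inner ℝ y eb = 0 := by
    rw [heb, inner_sub_right, inner_smul_right, i2, i3]
    field_simp
    ring
  have haa : inner ℝ ea ea = 4 * s ^ 2 := by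
    conv_lhs => rw [hea, inner_sub_left, inner_smul_left, ← hea, hya]
    rw [hea, inner_sub_right, inner_smul_right, i4, real_inner_comm, i1]
    simp
    field_simp
    ring
  have hbb : inner ℝ eb eb = 4 * s ^ 2 := by
    conv_lhs => rw [heb, inner_sub_left, inner_smul_left, ← heb, hyb]
    rw [heb, inner_sub_right, inner_smul_right, i5, real_inner_comm, i2]
    simp
    field_simp
    ring
  have hab : inner ℝ ea eb = 0 := by
    conv_lhs => rw [hea, inner_sub_left, inner_smul_left, hyb]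
    rw [heb, inner_sub_right, inner_smul_right, i6, real_inner_comm, i1]
    simp
    field_simp
    ring
  have hBaa : B ea ea = B (P σ s z 1) (P σ s z 1) := by
    simp [hea, hBy, hBy']
  have hBbb : B eb eb = B (P σ s z Complex.I) (P σ s z Complex.I) := by
    simp [heb, hBy, hBy']
  have hBab : B ea eb = B (P σ s z 1) (P σ s z Complex.I) := by
    simp [hea, heb, hBy, hBy']
  have k1 := hμ ea ea hya hya
  have k2 := hμ eb eb hyb hyb
  have k3 := hμ ea eb hya hyb
  rw [hBaa, haa] at k1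
  rw [hBbb, hbb] at k2
  rw [hBab, hab] at k3
  simp at h11 hII h1I
  rw [k1] at h11
  rw [k2] at hII
  rw [k3] at h1I
  constructor
  · have : 2 * s * (fderiv ℝ (fderiv ℝ g) z 1 1) = 2 * s * (fderiv ℝ (fderiv ℝ g) z Complex.I
      Complex.I) := by
      rw [← h11, ← hII]
    exact mul_left_cancel₀ (by positivity) this
  · have : 2 * s * (fderiv ℝ (fderiv ℝ g) z 1 Complex.I) = 0 := by
      rw [← h1I]
      ring
    exact (mul_eq_zero.1 this).resolve_left (by positivity)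

end Pool.Agent.Work.Cara
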