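import Pool.Agent.Work.MP_d5a045_gt.GeoB

set_option autoImplicit false

/-! # The Carathéodory conjecture: from a plane function to the negation (helper34) -/

namespace Pool.Agent.Work.Cara

open Filter Topology Metric Set
open scoped ContDiff NNReal

/-- stereographic projection of the direction of `y` -/
noncomputable def Zc (y : E3) : ℂ := (‖y‖ + y 2)⁻¹ • ((y 0 : ℂ) + (y 1 : ℂ) * Complex.I)

theorem Zc_re (y : E3) : (Zc y).re = (‖y‖ + y 2)⁻¹ * y 0 := by
  rw [Zc, Complex.smul_re]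
  simp
theorem Zc_im (y : E3) : (Zc y).im = (‖y‖ + y 2)⁻¹ * y 1 := by
  rw [Zc, Complex.smul_im]
  simp

/-- stereographic projection from the other pole -/
noncomputable def Wc (y : E3) : ℂ := (‖y‖ - y 2)⁻¹ • ((y 0 : ℂ) + (y 1 : ℂ) * Complex.I)

theorem Wc_re (y : E3) : (Wc y).re = (‖y‖ - y 2)⁻¹ * y 0 := by
  rw [Wc, Complex.smul_re]
  simp
theorem Wc_im (y : E3) : (Wc y).im = (‖y‖ - y 2)⁻¹ * y 1 := by
  rw [Wc, Complex.smul_im]
  simp

/-- the support function -/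
noncomputable def K0 (h g : ℂ → ℝ) (y : E3) : ℝ :=
  if y 2 < 0 then (‖y‖ - y 2) * g (Wc y) else (‖y‖ + y 2) * h (Zc y)

/-- the condition at infinity -/
def Out (h g : ℂ → ℝ) : Prop :=
  ∀ z : ℂ, 1 ≤ z.re ^ 2 + z.im ^ 2 →
    h z = (z.re ^ 2 + z.im ^ 2) * g ((z.re ^ 2 + z.im ^ 2)⁻¹ • z)

theorem norm_sq_E3 (y : E3) : ‖y‖ ^ 2 = y 0 ^ 2 + y 1 ^ 2 + y 2 ^ 2 := by
  rw [← real_inner_self_eq_norm_sq, inner_E3]
  ring

theorem abs_2_le (y : E3) : |y 2| ≤ ‖y‖ := by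
  refine abs_le_of_sq_le_sq ?_ (norm_nonneg y)
  rw [norm_sq_E3]
  nlinarith [sq_nonneg (y 0), sq_nonneg (y 1)]

variable {h g : ℂ → ℝ}

theorem K0_A (hout : Out h g) {y : E3} (hy : 0 < ‖y‖ + y 2) :
    K0 h g y = (‖y‖ + y 2) * h (Zc y) := by
  unfold K0
  split_ifs with h2
  · have h3 : 0 < ‖y‖ - y 2 := by linarith [norm_nonneg y]
    have h4 := norm_sq_E3 y
    have h5 : (Zc y).re ^ 2 + (Zc y).im ^ 2 = (‖y‖ - y 2) / (‖y‖ + y 2) := by
      rw [Zc_re, Zc_im]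
      field_simp
      linarith
    have h6 : ((‖y‖ - y 2) / (‖y‖ + y 2))⁻¹ • Zc y = Wc y := by
      rw [Zc, Wc, smul_smul]
      congr 1
      field_simp
    rw [hout (Zc y), h5, h6]
    · field_simp
    · rw [h5, le_div_iff₀ hy]
      linarith
  · rfl

theorem K0_phi (hout : Out h g) {s : ℝ} (hs : 0 < s) (z : ℂ) :
    K0 h g (phi 1 s z) = 2 * s * h z := by
  have h1 : ‖phi 1 s z‖ = s * (1 + z.re ^ 2 + z.im ^ 2) := by
    rw [← sq_eq_sq₀ (norm_nonneg _) (by positivity), norm_sq_E3]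
    simp
    ring
  have h2 : ‖phi 1 s z‖ + phi 1 s z 2 = 2 * s := by
    rw [h1]
    simp
    ring
  rw [K0_A hout (by rw [h2]; positivity), h2]
  congr 2
  apply Complex.ext
  · rw [Zc_re, h2]
    simp
    field_simp
  · rw [Zc_im, h2]
    simp
    field_simp

theorem K0_phi' {s : ℝ} (hs : 0 < s) {z : ℂ} (hz : z.re ^ 2 + z.im ^ 2 < 1) :
    K0 h g (phi (-1) s z) = 2 * s * g z := by
  have h1 : ‖phi (-1) s z‖ = s * (1 + z.re ^ 2 + z.im ^ 2) := by
    rw [← sq_eq_sq₀ (norm_nonneg _) (by positivity), norm_sq_E3]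
    simp
    ring
  have h2 : phi (-1) s z 2 < 0 := by
    simp
    nlinarith
  have h3 : ‖phi (-1) s z‖ - phi (-1) s z 2 = 2 * s := by
    rw [h1]
    simp
    ring
  rw [K0, if_pos h2, h3]
  congr 2
  apply Complex.ext
  · rw [Wc_re, h3]
    simp
    field_simp
  · rw [Wc_im, h3]
    simp
    field_simp

theorem contDiff_coord (i : Fin 3) : ContDiff ℝ ∞ (fun y : E3 => y i) :=
  (EuclideanSpace.proj (𝕜 := ℝ) i).contDiff

theorem contDiffAt_K0 (hh : ContDiff ℝ ∞ h) (hg : ContDiff ℝ ∞ g) (hout : Out h g) {y : E3}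
    (hy : y ≠ 0) : ContDiffAt ℝ ∞ (K0 h g) y := by
  have hn : ContDiffAt ℝ ∞ (fun y : E3 => ‖y‖) y := contDiffAt_norm ℝ hy
  have h0 := (contDiff_coord 0).contDiffAt (x := y)
  have h1 := (contDiff_coord 1).contDiffAt (x := y)
  have h2 := (contDiff_coord 2).contDiffAt (x := y)
  have hpos : 0 < ‖y‖ := norm_pos_iff.2 hy
  rcases lt_or_ge (y 2) 0 with h3 | h3
  · have h5 : 0 < ‖y‖ - y 2 := by linarith
    have h4 : K0 h g =ᶠ[𝓝 y] fun y => (‖y‖ - y 2) * g (Wc y) := by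
      filter_upwards [(contDiff_coord 2).continuous.continuousAt.eventually (Iio_mem_nhds h3)]
        with z hz
      rw [K0, if_pos hz]
    refine ContDiffAt.congr_of_eventuallyEq ?_ h4
    refine (hn.sub h2).mul (hg.contDiffAt.comp y ?_)
    unfold Wc
    refine ((hn.sub h2).inv h5.ne').smul ?_
    exact (Complex.ofRealCLM.contDiff.contDiffAt.comp y h0).add
      ((Complex.ofRealCLM.contDiff.contDiffAt.comp y h1).mul contDiffAt_const)
  · have h5 : 0 < ‖y‖ + y 2 := by linarith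
    have h4 : K0 h g =ᶠ[𝓝 y] fun y => (‖y‖ + y 2) * h (Zc y) := by
      have h6 : ContinuousAt (fun y : E3 => ‖y‖ + y 2) y := (hn.add h2).continuousAt
      filter_upwards [h6.eventually (Ioi_mem_nhds h5)] with z hz
      exact K0_A hout hz
    refine ContDiffAt.congr_of_eventuallyEq ?_ h4
    refine (hn.add h2).mul (hh.contDiffAt.comp y ?_)
    unfold Zc
    refine ((hn.add h2).inv h5.ne').smul ?_
    exact (Complex.ofRealCLM.contDiff.contDiffAt.comp y h0).add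
      ((Complex.ofRealCLM.contDiff.contDiffAt.comp y h1).mul contDiffAt_const)

theorem K0_smul {t : ℝ} (ht : 0 < t) (y : E3) : K0 h g (t • y) = t * K0 h g y := by
  have h1 : ‖t • y‖ = t * ‖y‖ := by rw [norm_smul, Real.norm_eq_abs, abs_of_pos ht]
  have h2 : ((t • y) 2 < 0) ↔ (y 2 < 0) := by
    simp [mul_neg_iff, ht, not_lt.2 ht.le]
  have h5 : (((t • y) 0 : ℝ) : ℂ) + (((t • y) 1 : ℝ) : ℂ) * Complex.I =
      t • ((y 0 : ℂ) + (y 1 : ℂ) * Complex.I) := by
    simp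
    ring
  have h3 : Zc (t • y) = Zc y := by
    unfold Zc
    rw [h1]
    have h4 : t * ‖y‖ + (t • y) 2 = t * (‖y‖ + y 2) := by simp; ring
    rw [h4, h5, smul_smul, mul_inv, mul_assoc, mul_comm _ t, ← mul_assoc, inv_mul_cancel₀ ht.ne',
      one_mul]
  have h3' : Wc (t • y) = Wc y := by
    unfold Wc
    rw [h1]
    have h4 : t * ‖y‖ - (t • y) 2 = t * (‖y‖ - y 2) := by simp; ring
    rw [h4, h5, smul_smul, mul_inv, mul_assoc, mul_comm _ t, ← mul_assoc, inv_mul_cancel₀ ht.ne',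
      one_mul]
  unfold K0
  rw [h1, h3, h3']
  by_cases h4 : y 2 < 0
  · rw [if_pos (h2.2 h4), if_pos h4]
    simp
    ring
  · rw [if_neg (fun h => h4 (h2.1 h)), if_neg h4]
    simp
    ring

theorem euler (hh : ContDiff ℝ ∞ h) (hg : ContDiff ℝ ∞ g) (hout : Out h g) {y : E3}
    (hy : y ≠ 0) : fderiv ℝ (fderiv ℝ (K0 h g)) y y = 0 := by
  have h1 : ∀ t : ℝ, 0 < t → fderiv ℝ (K0 h g) (t • y) = fderiv ℝ (K0 h g) y := by
    intro t ht
    have h2 : HasFDerivAt (K0 h g) (fderiv ℝ (K0 h g) (t • y)) (t • y) :=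
      ((contDiffAt_K0 hh hg hout (smul_ne_zero ht.ne' hy)).differentiableAt (by simp)).hasFDerivAt
    have h3 : HasFDerivAt (fun y : E3 => t • y) (t • ContinuousLinearMap.id ℝ E3) y :=
      (hasFDerivAt_id y).const_smul t
    have h4 := h2.comp y h3
    have h5 : HasFDerivAt (K0 h g) (fderiv ℝ (K0 h g) y) y :=
      ((contDiffAt_K0 hh hg hout hy).differentiableAt (by simp)).hasFDerivAt
    have h6 := h5.const_mul t
    have h7 : (K0 h g ∘ fun y : E3 => t • y) = fun y => t * K0 h g y := by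
      ext y
      exact K0_smul ht y
    rw [h7] at h4
    have h8 := h4.unique h6
    ext v
    have h9 := congrArg (fun L : E3 →L[ℝ] ℝ => L v) h8
    simp at h9
    exact h9.resolve_right ht.ne'
  have h2 : HasFDerivAt (fderiv ℝ (K0 h g)) (fderiv ℝ (fderiv ℝ (K0 h g)) y) ((1 : ℝ) • y) := by
    rw [one_smul]
    exact (((contDiffAt_K0 hh hg hout hy).fderiv_right (m := ∞) (by simp)).differentiableAt
      (by simp)).hasFDerivAt
  have h3 : HasDerivAt (fun t : ℝ => t • y) y 1 := by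
    simpa using (hasDerivAt_id (1 : ℝ)).smul_const y
  have h4 := h2.comp_hasDerivAt (1 : ℝ) h3
  have h5 : (fderiv ℝ (K0 h g) ∘ fun t : ℝ => t • y) =ᶠ[𝓝 1] fun _ => fderiv ℝ (K0 h g) y := by
    filter_upwards [Ioi_mem_nhds (show (0 : ℝ) < 1 by norm_num)] with t ht
    exact h1 t ht
  exact h4.unique ((hasDerivAt_const (1 : ℝ) (fderiv ℝ (K0 h g) y)).congr_of_eventuallyEq h5)

end Pool.Agent.Work.Cara
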